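import Mathlib

/-!
# Averaging operators on product spaces

Finite product probability as a family of commuting averaging operators.
-/

namespace Pool.Agent.Helper96.NB

set_option linter.unusedSectionVars false

open Finset

variable {I A : Type*} [DecidableEq I]

/-- a family of finitely supported probability weights, one for every coordinate -/
structure PW (I A : Type*) where
  supp : I → Finset A
  w : I → A → ℝ
  nonneg : ∀ i a, 0 ≤ w i a
  total : ∀ i, ∑ a ∈ supp i, w i a = 1

namespace PW

variable (P : PW I A)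

/-- average over one coordinate -/
noncomputable def avg (i : I) (f : (I → A) → ℝ) : (I → A) → ℝ :=
  fun ω => ∑ a ∈ P.supp i, P.w i a * f (Function.update ω i a)

/-- average over a list of coordinates (the first one is the outermost) -/
noncomputable def av : List I → ((I → A) → ℝ) → ((I → A) → ℝ)
  | [], f => f
  | i :: l, f => P.avg i (av l f)

/-- `f` does not depend on coordinate `i` -/
def Ind (i : I) (f : (I → A) → ℝ) : Prop := ∀ ω a, f (Function.update ω i a) = f ω

@[simp] theorem av_nil (f : (I → A) → ℝ) : P.av [] f = f := rfl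

theorem av_cons (i : I) (l : List I) (f : (I → A) → ℝ) : P.av (i :: l) f = P.avg i (P.av l f) := rfl

theorem avg_mono (i : I) {f g : (I → A) → ℝ} (h : ∀ ω, f ω ≤ g ω) (ω : I → A) :
    P.avg i f ω ≤ P.avg i g ω :=
  Finset.sum_le_sum fun a _ => mul_le_mul_of_nonneg_left (h _) (P.nonneg i a)

theorem av_mono (l : List I) {f g : (I → A) → ℝ} (h : ∀ ω, f ω ≤ g ω) (ω : I → A) :
    P.av l f ω ≤ P.av l g ω := by
  induction l generalizing ω with
  | nil => exact h ω
  | cons i l ih => exact P.avg_mono i ih ω

theorem avg_const (i : I) (c : ℝ) (ω : I → A) : P.avg i (fun _ => c) ω = c := by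
  simp [avg, ← Finset.sum_mul, P.total]

theorem av_const (l : List I) (c : ℝ) (ω : I → A) : P.av l (fun _ => c) ω = c := by
  induction l generalizing ω with
  | nil => rfl
  | cons i l ih =>
    have : P.av l (fun _ => c) = fun _ => c := funext ih
    rw [av_cons, this, avg_const]

theorem avg_add (i : I) (f g : (I → A) → ℝ) (ω : I → A) :
    P.avg i (fun ω => f ω + g ω) ω = P.avg i f ω + P.avg i g ω := by
  simp [avg, mul_add, Finset.sum_add_distrib]

theorem av_add (l : List I) (f g : (I → A) → ℝ) (ω : I → A) :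
    P.av l (fun ω => f ω + g ω) ω = P.av l f ω + P.av l g ω := by
  induction l generalizing ω with
  | nil => rfl
  | cons i l ih =>
    have : P.av l (fun ω => f ω + g ω) = fun ω => P.av l f ω + P.av l g ω := funext ih
    rw [av_cons, this, avg_add]; rfl

theorem avg_smul (i : I) (c : ℝ) (f : (I → A) → ℝ) (ω : I → A) :
    P.avg i (fun ω => c * f ω) ω = c * P.avg i f ω := by
  simp only [avg, Finset.mul_sum]
  refine Finset.sum_congr rfl fun a _ => by ring

theorem av_smul (l : List I) (c : ℝ) (f : (I → A) → ℝ) (ω : I → A) :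
    P.av l (fun ω => c * f ω) ω = c * P.av l f ω := by
  induction l generalizing ω with
  | nil => rfl
  | cons i l ih =>
    have : P.av l (fun ω => c * f ω) = fun ω => c * P.av l f ω := funext ih
    rw [av_cons, this, avg_smul]; rfl

theorem av_sub (l : List I) (f g : (I → A) → ℝ) (ω : I → A) :
    P.av l (fun ω => f ω - g ω) ω = P.av l f ω - P.av l g ω := by
  have h := P.av_add l f (fun ω => (-1) * g ω) ω
  rw [av_smul] at h
  have e : (fun ω => f ω - g ω) = fun ω => f ω + (-1) * g ω := by funext ω; ring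
  rw [e, h]; ring

theorem av_sum {K : Type*} (l : List I) (s : Finset K) (f : K → (I → A) → ℝ) (ω : I → A) :
    P.av l (fun ω => ∑ k ∈ s, f k ω) ω = ∑ k ∈ s, P.av l (f k) ω := by
  classical
  induction s using Finset.induction_on with
  | empty => simpa using P.av_const l 0 ω
  | insert k s hk ih =>
    have e : (fun ω => ∑ k ∈ insert k s, f k ω) = fun ω => f k ω + ∑ k ∈ s, f k ω := by
      funext ω; rw [Finset.sum_insert hk]
    rw [e, av_add, Finset.sum_insert hk, ih]

theorem av_append (l₁ l₂ : List I) (f : (I → A) → ℝ) :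
    P.av (l₁ ++ l₂) f = P.av l₁ (P.av l₂ f) := by
  induction l₁ with
  | nil => rfl
  | cons i l ih => rw [List.cons_append, av_cons, av_cons, ih]

theorem avg_nonneg (i : I) {f : (I → A) → ℝ} (h : ∀ ω, 0 ≤ f ω) (ω : I → A) :
    0 ≤ P.avg i f ω :=
  Finset.sum_nonneg fun a _ => mul_nonneg (P.nonneg i a) (h _)

theorem av_nonneg (l : List I) {f : (I → A) → ℝ} (h : ∀ ω, 0 ≤ f ω) (ω : I → A) :
    0 ≤ P.av l f ω := by
  have := P.av_mono l (f := fun _ => 0) (g := f) h ω
  rwa [av_const] at this

/-- averaging a function independent of the coordinate -/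
theorem avg_ind (i : I) {f : (I → A) → ℝ} (h : Ind i f) (ω : I → A) : P.avg i f ω = f ω := by
  simp only [avg, h ω, ← Finset.sum_mul, P.total, one_mul]

theorem avg_mul_left (i : I) {f g : (I → A) → ℝ} (h : Ind i f) (ω : I → A) :
    P.avg i (fun ω => f ω * g ω) ω = f ω * P.avg i g ω := by
  simp only [avg, h ω, Finset.mul_sum]
  refine Finset.sum_congr rfl fun a _ => by ring

theorem Ind_avg_self (i : I) (f : (I → A) → ℝ) : Ind i (P.avg i f) := by
  intro ω a
  simp [avg]

theorem Ind_avg {i j : I} {f : (I → A) → ℝ} (h : Ind i f) : Ind i (P.avg j f) := by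
  by_cases hij : i = j
  · subst hij; exact P.Ind_avg_self _ f
  · intro ω a
    simp only [avg]
    refine Finset.sum_congr rfl fun b _ => ?_
    rw [Function.update_comm hij, h]

theorem Ind_av {i : I} (l : List I) {f : (I → A) → ℝ} (h : Ind i f) : Ind i (P.av l f) := by
  induction l with
  | nil => exact h
  | cons j l ih => exact P.Ind_avg ih

theorem Ind_av_mem {i : I} {l : List I} (hi : i ∈ l) (f : (I → A) → ℝ) : Ind i (P.av l f) := by
  induction l with
  | nil => simp at hi
  | cons j l ih =>
    by_cases hij : i = j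
    · subst hij; exact P.Ind_avg_self _ _
    · exact P.Ind_avg (ih (by simpa [hij] using hi))

theorem avg_comm (i j : I) (f : (I → A) → ℝ) : P.avg i (P.avg j f) = P.avg j (P.avg i f) := by
  by_cases hij : i = j
  · subst hij; rfl
  · funext ω
    simp only [avg, Finset.mul_sum]
    rw [Finset.sum_comm]
    refine Finset.sum_congr rfl fun a _ => Finset.sum_congr rfl fun b _ => ?_
    rw [Function.update_comm hij]; ring

theorem av_perm {l₁ l₂ : List I} (h : l₁.Perm l₂) (f : (I → A) → ℝ) :
    P.av l₁ f = P.av l₂ f := by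
  induction h with
  | nil => rfl
  | cons i _ ih => rw [av_cons, av_cons, ih]
  | swap i j l => rw [av_cons, av_cons, av_cons, av_cons, avg_comm]
  | trans _ _ ih₁ ih₂ => exact ih₁.trans ih₂

/-- the product rule -/
theorem av_mul (l : List I) {f g : (I → A) → ℝ} (h : ∀ i ∈ l, Ind i f ∨ Ind i g) (ω : I → A) :
    P.av l (fun ω => f ω * g ω) ω = P.av l f ω * P.av l g ω := by
  induction l generalizing ω with
  | nil => rfl
  | cons i l ih =>
    have e : P.av l (fun ω => f ω * g ω) = fun ω => P.av l f ω * P.av l g ω :=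
      funext (ih fun j hj => h j (List.mem_cons_of_mem _ hj))
    rw [av_cons, av_cons, av_cons, e]
    rcases h i List.mem_cons_self with hf | hg
    · rw [avg_mul_left P i (P.Ind_av l hf), avg_ind P i (P.Ind_av l hf)]
    · have e2 : (fun ω => P.av l f ω * P.av l g ω) = fun ω => P.av l g ω * P.av l f ω := by
        funext ω; ring
      rw [e2, avg_mul_left P i (P.Ind_av l hg), avg_ind P i (P.Ind_av l hg)]; ring

/-- a factor independent of all the coordinates of the list -/
theorem av_mul_left (l : List I) {f g : (I → A) → ℝ} (h : ∀ i ∈ l, Ind i f) (ω : I → A) :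
    P.av l (fun ω => f ω * g ω) ω = f ω * P.av l g ω := by
  induction l generalizing ω with
  | nil => rfl
  | cons i l ih =>
    have e : P.av l (fun ω => f ω * g ω) = fun ω => f ω * P.av l g ω :=
      funext (ih fun j hj => h j (List.mem_cons_of_mem _ hj))
    rw [av_cons, av_cons, e, avg_mul_left P i (h i List.mem_cons_self)]

theorem av_ind (l : List I) {f : (I → A) → ℝ} (h : ∀ i ∈ l, Ind i f) (ω : I → A) :
    P.av l f ω = f ω := by
  have := P.av_mul_left l (f := f) (g := fun _ => 1) h ω
  simpa [av_const] using this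

/-! ### Events -/

open Classical in
/-- the indicator of an event -/
noncomputable def ev (E : (I → A) → Prop) (ω : I → A) : ℝ := if E ω then 1 else 0

theorem ev_nonneg (E : (I → A) → Prop) (ω : I → A) : 0 ≤ ev E ω := by
  unfold ev; split_ifs <;> norm_num

theorem ev_le_one (E : (I → A) → Prop) (ω : I → A) : ev E ω ≤ 1 := by
  unfold ev; split_ifs <;> norm_num

theorem ev_true {E : (I → A) → Prop} {ω : I → A} (h : E ω) : ev E ω = 1 := by simp [ev, h]

theorem ev_false {E : (I → A) → Prop} {ω : I → A} (h : ¬E ω) : ev E ω = 0 := by simp [ev, h]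

theorem ev_mono {E F : (I → A) → Prop} (h : ∀ ω, E ω → F ω) (ω : I → A) : ev E ω ≤ ev F ω := by
  by_cases hE : E ω
  · rw [ev_true hE, ev_true (h ω hE)]
  · rw [ev_false hE]; exact ev_nonneg F ω

theorem ev_or_le (E F : (I → A) → Prop) (ω : I → A) :
    ev (fun ω => E ω ∨ F ω) ω ≤ ev E ω + ev F ω := by
  by_cases hE : E ω
  · rw [ev_true (E := fun ω => E ω ∨ F ω) (Or.inl hE), ev_true hE]
    linarith [ev_nonneg F ω]
  · by_cases hF : F ω
    · rw [ev_true (E := fun ω => E ω ∨ F ω) (Or.inr hF), ev_true hF]
      linarith [ev_nonneg E ω]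
    · rw [ev_false (E := fun ω => E ω ∨ F ω) (by tauto)]
      linarith [ev_nonneg E ω, ev_nonneg F ω]

/-- Markov's inequality -/
theorem markov (l : List I) {E : (I → A) → Prop} {f : (I → A) → ℝ} {c : ℝ} (hc : 0 < c)
    (hf : ∀ ω, 0 ≤ f ω) (h : ∀ ω, E ω → c ≤ f ω) (ω : I → A) :
    P.av l (ev E) ω ≤ P.av l f ω / c := by
  have h1 : ∀ ω, ev E ω ≤ c⁻¹ * f ω := by
    intro ω
    by_cases hE : E ω
    · rw [ev_true hE]
      have := mul_le_mul_of_nonneg_left (h ω hE) (inv_nonneg.2 hc.le)
      rwa [inv_mul_cancel₀ hc.ne'] at this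
    · rw [ev_false hE]; exact mul_nonneg (inv_nonneg.2 hc.le) (hf ω)
  have h2 := P.av_mono l h1 ω
  rw [av_smul] at h2
  rw [div_eq_inv_mul]; exact h2

theorem exists_of_pos (l : List I) {E : (I → A) → Prop} {ω : I → A} (h : 0 < P.av l (ev E) ω) :
    ∃ ω', E ω' := by
  by_contra hne
  push Not at hne
  have : P.av l (ev E) ω ≤ P.av l (fun _ => 0) ω :=
    P.av_mono l (fun ω' => by rw [ev_false (hne ω')]) ω
  rw [av_const] at this
  linarith

end PW

end Pool.Agent.Helper96.NB
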