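import Pool.Agent.Helper96.NB.Avg

/-!
# The symmetric Lovasz local lemma on a finite product space
-/

namespace Pool.Agent.Helper96.NB

set_option linter.unusedSectionVars false

open Finset PW

variable {I A : Type*} [DecidableEq I]

/-- no bad event of `T` happens -/
noncomputable def none {V : Type*} (Bad : V → (I → A) → Prop) (T : Finset V) (ω : I → A) : ℝ :=
  ev (fun ω => ∀ v ∈ T, ¬Bad v ω) ω

theorem local_lemma {V : Type*} [DecidableEq V] (P : PW I A) (l : List I) (ω₀ : I → A)
    (Bad : V → (I → A) → Prop) (S : V → Set I) (nb : V → Finset V)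
    (hdep : ∀ v, ∀ i ∉ S v, Ind i (ev (Bad v)))
    (hnb : ∀ v u, u ∉ nb v → Disjoint (S u) (S v))
    (D : ℕ) (hD : ∀ v, (nb v).card ≤ D) (q : ℝ) (hq : ∀ v, P.av l (ev (Bad v)) ω₀ ≤ q)
    (hqD : 4 * q * D ≤ 1) (hq4 : 4 * q ≤ 1) (T : Finset V) :
    ∃ ω, ∀ v ∈ T, ¬Bad v ω := by
  classical
  set pr : Finset V → ℝ := fun T => P.av l (none Bad T) ω₀ with hpr
  -- elementary facts
  have hbadnone : ∀ v (T : Finset V), ∀ ω, none Bad T ω = none Bad (insert v T) ω + ev (Bad v) ω * none Bad T ω := by
    intro v T ω
    unfold none
    by_cases h1 : ∀ u ∈ T, ¬Bad u ω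
    · by_cases h2 : Bad v ω
      · rw [ev_true (E := fun ω => ∀ v ∈ T, ¬Bad v ω) h1, ev_true h2,
          ev_false (E := fun ω => ∀ u ∈ insert v T, ¬Bad u ω)
            (fun h => h v (Finset.mem_insert_self _ _) h2)]
        ring
      · rw [ev_true (E := fun ω => ∀ v ∈ T, ¬Bad v ω) h1, ev_false h2,
          ev_true (E := fun ω => ∀ u ∈ insert v T, ¬Bad u ω)
            (fun u hu => by
              rcases Finset.mem_insert.1 hu with rfl | hu
              · exact h2
              · exact h1 u hu)]
        ring
    · rw [ev_false (E := fun ω => ∀ v ∈ T, ¬Bad v ω) h1,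
        ev_false (E := fun ω => ∀ u ∈ insert v T, ¬Bad u ω)
          (fun h => h1 fun u hu => h u (Finset.mem_insert_of_mem hu))]
      ring
  have hnonneg : ∀ T, 0 ≤ pr T := fun T => P.av_nonneg l (fun ω => ev_nonneg _ ω) ω₀
  have hmonoT : ∀ T T' : Finset V, T ⊆ T' → ∀ ω, none Bad T' ω ≤ none Bad T ω := fun T T' h ω =>
    ev_mono (fun ω h1 v hv => h1 v (h hv)) ω
  -- the joint probability
  set jp : V → Finset V → ℝ := fun v T => P.av l (fun ω => ev (Bad v) ω * none Bad T ω) ω₀ with hjp
  have hsplit : ∀ v T, pr T = pr (insert v T) + jp v T := by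
    intro v T
    have e : none Bad T = fun ω => none Bad (insert v T) ω + ev (Bad v) ω * none Bad T ω :=
      funext (hbadnone v T)
    show P.av l (none Bad T) ω₀ = _
    conv_lhs => rw [e]
    rw [P.av_add]
  have hq0 : ∀ v : V, 0 ≤ q := fun v => (P.av_nonneg l (fun ω => ev_nonneg _ ω) ω₀).trans (hq v)
  -- independence
  have hindnone : ∀ v (T : Finset V), (∀ u ∈ T, u ∉ nb v) → jp v T ≤ q * pr T := by
    intro v T hT
    have h1 : jp v T = P.av l (ev (Bad v)) ω₀ * pr T := by
      refine P.av_mul l (fun i _ => ?_) ω₀
      by_cases hi : i ∈ S v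
      · right
        intro ω a
        have : ∀ u ∈ T, (Bad u (Function.update ω i a) ↔ Bad u ω) := by
          intro u hu
          have hiu : i ∉ S u := fun h => Set.disjoint_left.1 (hnb v u (hT u hu)) h hi
          have := hdep u i hiu ω a
          unfold ev at this
          by_cases hb : Bad u ω
          · rw [if_pos hb] at this
            by_contra hcon
            have hn : ¬Bad u (Function.update ω i a) := fun h => hcon ⟨fun _ => hb, fun _ => h⟩
            rw [if_neg hn] at this; norm_num at this
          · rw [if_neg hb] at this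
            by_contra hcon
            have hn : Bad u (Function.update ω i a) := by
              by_contra h; exact hcon ⟨fun h' => absurd h' h, fun h' => absurd h' hb⟩
            rw [if_pos hn] at this; norm_num at this
        unfold none ev
        have e : (∀ v ∈ T, ¬Bad v (Function.update ω i a)) ↔ ∀ v ∈ T, ¬Bad v ω :=
          ⟨fun h u hu hb => h u hu ((this u hu).2 hb), fun h u hu hb => h u hu ((this u hu).1 hb)⟩
        by_cases hh : ∀ v ∈ T, ¬Bad v ω
        · rw [if_pos hh, if_pos (e.2 hh)]
        · rw [if_neg hh, if_neg (fun h => hh (e.1 h))]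
      · left; exact hdep v i hi
    rw [h1]
    exact mul_le_mul_of_nonneg_right (hq v) (hnonneg T)
  -- main induction
  have main : ∀ n : ℕ, ∀ T : Finset V, T.card ≤ n → 0 < pr T ∧ ∀ v, jp v T ≤ 2 * q * pr T := by
    intro n
    induction n with
    | zero =>
      intro T hT
      have hT0 : T = ∅ := Finset.card_eq_zero.1 (Nat.le_zero.1 hT)
      subst hT0
      have hone : pr ∅ = 1 := by
        have : none Bad (∅ : Finset V) = fun _ => (1 : ℝ) := by
          funext ω; unfold none; exact ev_true (by simp)
        show P.av l (none Bad ∅) ω₀ = 1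
        rw [this, P.av_const]
      refine ⟨by rw [hone]; norm_num, fun v => ?_⟩
      have h1 := hindnone v ∅ (by simp)
      have := hq0 v
      rw [hone] at h1 ⊢
      linarith
    | succ n ih =>
      intro T hT
      -- positivity
      have hpos : 0 < pr T := by
        rcases T.eq_empty_or_nonempty with rfl | ⟨u, hu⟩
        · exact (ih ∅ (by simp)).1
        · have hc : (T.erase u).card ≤ n := by
            rw [Finset.card_erase_of_mem hu]; omega
          obtain ⟨h1, h2⟩ := ih (T.erase u) hc
          have h3 := hsplit u (T.erase u)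
          rw [Finset.insert_erase hu] at h3
          have h4 := h2 u
          nlinarith
      refine ⟨hpos, fun v => ?_⟩
      set T1 := T.filter (· ∈ nb v) with hT1
      set T2 := T.filter (· ∉ nb v) with hT2
      rcases T1.eq_empty_or_nonempty with hE | hne
      · have hTT : ∀ u ∈ T, u ∉ nb v := by
          intro u hu hun
          have : u ∈ T1 := Finset.mem_filter.2 ⟨hu, hun⟩
          rw [hE] at this; simp at this
        have h1 := hindnone v T hTT
        have := hq0 v
        nlinarith [hnonneg T]
      · have hlt : T2.card ≤ n := by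
          have h1 : T1.card + T2.card = T.card := by
            rw [hT1, hT2]; exact Finset.card_filter_add_card_filter_not _
          have h2 : 0 < T1.card := Finset.card_pos.2 hne
          omega
        have hT2sub : T2 ⊆ T := Finset.filter_subset _ _
        have h1 : jp v T ≤ q * pr T2 := by
          refine le_trans ?_ (hindnone v T2 (fun u hu => (Finset.mem_filter.1 hu).2))
          exact P.av_mono l (fun ω => mul_le_mul_of_nonneg_left (hmonoT T2 T hT2sub ω)
            (ev_nonneg _ ω)) ω₀
        have h2 : pr T2 - ∑ u ∈ T1, jp u T2 ≤ pr T := by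
          have key : ∀ ω, none Bad T2 ω - ∑ u ∈ T1, ev (Bad u) ω * none Bad T2 ω ≤ none Bad T ω := by
            intro ω
            by_cases hb2 : ∀ u ∈ T2, ¬Bad u ω
            · by_cases hb1 : ∀ u ∈ T1, ¬Bad u ω
              · have hT : ∀ u ∈ T, ¬Bad u ω := by
                  intro u hu
                  by_cases hun : u ∈ nb v
                  · exact hb1 u (Finset.mem_filter.2 ⟨hu, hun⟩)
                  · exact hb2 u (Finset.mem_filter.2 ⟨hu, hun⟩)
                have e1 : none Bad T ω = 1 := ev_true (E := fun ω => ∀ v ∈ T, ¬Bad v ω) hT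
                have e2 : 0 ≤ ∑ u ∈ T1, ev (Bad u) ω * none Bad T2 ω :=
                  Finset.sum_nonneg fun u _ => mul_nonneg (ev_nonneg _ _) (ev_nonneg _ _)
                have e3 : none Bad T2 ω ≤ 1 := ev_le_one _ _
                linarith
              · push Not at hb1
                obtain ⟨u, hu, hbu⟩ := hb1
                have e1 : none Bad T2 ω = 1 := ev_true (E := fun ω => ∀ v ∈ T2, ¬Bad v ω) hb2
                have e2 : ev (Bad u) ω * none Bad T2 ω ≤
                    ∑ u ∈ T1, ev (Bad u) ω * none Bad T2 ω :=
                  Finset.single_le_sum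
                    (f := fun u => ev (Bad u) ω * none Bad T2 ω)
                    (fun u _ => mul_nonneg (ev_nonneg _ _) (ev_nonneg _ _)) hu
                rw [ev_true hbu, e1] at e2
                have e3 : 0 ≤ none Bad T ω := ev_nonneg _ _
                rw [e1]
                linarith
            · have e1 : none Bad T2 ω = 0 := ev_false (E := fun ω => ∀ v ∈ T2, ¬Bad v ω) hb2
              have e3 : 0 ≤ none Bad T ω := ev_nonneg _ _
              simp only [e1, mul_zero, Finset.sum_const_zero, sub_zero]
              exact e3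
          have h3 := P.av_mono l key ω₀
          rw [P.av_sub, P.av_sum] at h3
          exact h3
        obtain ⟨h3, h4⟩ := ih T2 hlt
        have h5 : ∑ u ∈ T1, jp u T2 ≤ T1.card * (2 * q * pr T2) := by
          have := Finset.sum_le_card_nsmul T1 (fun u => jp u T2) (2 * q * pr T2) (fun u _ => h4 u)
          simpa [nsmul_eq_mul] using this
        have h6 : (T1.card : ℝ) ≤ D := by
          have : T1 ⊆ nb v := fun u hu => (Finset.mem_filter.1 hu).2
          exact_mod_cast (Finset.card_le_card this).trans (hD v)
        have h7 : (T1.card : ℝ) * (2 * q * pr T2) ≤ D * (2 * q * pr T2) :=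
          mul_le_mul_of_nonneg_right h6 (by have := hq0 v; positivity)
        have h8 : (D : ℝ) * (2 * q * pr T2) ≤ pr T2 / 2 := by nlinarith
        have h9 : pr T2 ≤ 2 * pr T := by linarith
        have := hq0 v
        nlinarith
  have hT := (main T.card T le_rfl).1
  obtain ⟨ω, hω⟩ := P.exists_of_pos l hT
  exact ⟨ω, hω⟩

end Pool.Agent.Helper96.NB
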