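import Pool.Agent.Helper96.NB.Tail
import Pool.Agent.Helper96.NB.LLL

/-!
# An outcome without bad events
-/

namespace Pool.Agent.Helper96.NB

set_option linter.unusedSectionVars false

open Finset PW Real

variable {n l : ℕ} (E : Fin n × Fin l → Fin n × Fin l → Prop)

open Classical in
/-- a vertex and its neighbours -/
noncomputable def nbV (v : Fin n) : Finset (Fin n) :=
  univ.filter (fun w => w = v ∨ ∃ i j, E (v, i) (w, j))

theorem mem_nbV {v w : Fin n} : w ∈ nbV E v ↔ w = v ∨ ∃ i j, E (v, i) (w, j) := by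
  simp [nbV]

theorem nbV_symm (hE : Conf E) {v w : Fin n} (h : w ∈ nbV E v) : v ∈ nbV E w := by
  rw [mem_nbV] at h ⊢
  rcases h with h | ⟨i, j, h⟩
  · exact Or.inl h.symm
  · exact Or.inr ⟨j, i, hE.symm _ _ h⟩

theorem self_mem_nbV (v : Fin n) : v ∈ nbV E v := (mem_nbV E).2 (Or.inl rfl)

theorem card_nbV_le (d : ℕ) (hd : ∀ s, (N E s).card ≤ d) (v : Fin n) :
    (nbV E v).card ≤ 1 + l * d := by
  classical
  have h : nbV E v ⊆ insert v ((univ : Finset (Fin l)).biUnion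
      (fun i => (N E (v, i)).image Prod.fst)) := by
    intro w hw
    rw [mem_nbV] at hw
    rcases hw with rfl | ⟨i, j, h⟩
    · exact Finset.mem_insert_self _ _
    · refine Finset.mem_insert_of_mem (Finset.mem_biUnion.2 ⟨i, Finset.mem_univ _, ?_⟩)
      exact Finset.mem_image.2 ⟨(w, j), mem_N.2 h, rfl⟩
  refine (Finset.card_le_card h).trans ((Finset.card_insert_le _ _).trans ?_)
  have h2 : ((univ : Finset (Fin l)).biUnion (fun i => (N E (v, i)).image Prod.fst)).card ≤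
      ∑ i : Fin l, d := Finset.card_biUnion_le.trans
        (Finset.sum_le_sum fun i _ => Finset.card_image_le.trans (hd _))
  simp at h2
  omega

/-- the ball of radius two -/
noncomputable def B2 (v : Fin n) : Finset (Fin n) := (nbV E v).biUnion (nbV E)

theorem mem_B2 {v w : Fin n} : w ∈ B2 E v ↔ ∃ u ∈ nbV E v, w ∈ nbV E u := by
  simp [B2]

theorem B2_symm (hE : Conf E) {v w : Fin n} (h : w ∈ B2 E v) : v ∈ B2 E w := by
  rw [mem_B2] at h ⊢
  obtain ⟨u, h1, h2⟩ := h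
  exact ⟨u, nbV_symm E hE h2, nbV_symm E hE h1⟩

theorem card_B2_le (d : ℕ) (hd : ∀ s, (N E s).card ≤ d) (v : Fin n) :
    (B2 E v).card ≤ (1 + l * d) * (1 + l * d) :=
  (Finset.card_biUnion_le_card_mul _ _ _ fun u _ => card_nbV_le E d hd u).trans
    (Nat.mul_le_mul_right _ (card_nbV_le E d hd v))

/-- vertices whose events may depend on the event of `v` -/
noncomputable def nb (v : Fin n) : Finset (Fin n) := (B2 E v).biUnion (B2 E)

theorem card_nb_le (d : ℕ) (hd : ∀ s, (N E s).card ≤ d) (v : Fin n) :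
    (nb E v).card ≤ (1 + l * d) * (1 + l * d) * ((1 + l * d) * (1 + l * d)) :=
  (Finset.card_biUnion_le_card_mul _ _ _ fun u _ => card_B2_le E d hd u).trans
    (Nat.mul_le_mul_right _ (card_B2_le E d hd v))

/-- the vertex of a coordinate -/
def att : Idx n l → Fin n
  | Sum.inl v => v
  | Sum.inr s => s.1

/-- the coordinates relevant for `v` -/
def Sv (v : Fin n) : Set (Idx n l) := {i | att i ∈ B2 E v}

theorem disj_Sv (hE : Conf E) (v u : Fin n) (h : u ∉ nb E v) : Disjoint (Sv E u) (Sv E v) := by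
  rw [Set.disjoint_left]
  intro i hi hi'
  apply h
  unfold nb
  rw [Finset.mem_biUnion]
  exact ⟨att i, hi', B2_symm E hE hi⟩

/-- the slots adjacent to slots of `v` -/
noncomputable def Qv (v : Fin n) : Finset (Fin n × Fin l) :=
  (univ : Finset (Fin l)).biUnion (fun i => N E (v, i))

/-- all slots of the neighbours of `s` -/
noncomputable def Qs (s : Fin n × Fin l) : Finset (Fin n × Fin l) :=
  ((N E s).image Prod.fst) ×ˢ univ

/-- the family of sets to be controlled at `v` -/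
noncomputable def fam (v : Fin n) : Finset (Finset (Fin n × Fin l)) :=
  insert (Qv E v) ((univ : Finset (Fin l)).image (fun i => Qs E (v, i)))

theorem card_fam_le (v : Fin n) : (fam E v).card ≤ l + 1 := by
  refine (Finset.card_insert_le _ _).trans ?_
  have := Finset.card_image_le (s := (univ : Finset (Fin l))) (f := fun i => Qs E (v, i))
  simp at this
  omega

theorem card_Qv_le (d : ℕ) (hd : ∀ s, (N E s).card ≤ d) (v : Fin n) : (Qv E v).card ≤ l * d := by
  have := Finset.card_biUnion_le_card_mul (univ : Finset (Fin l)) (fun i => N E (v, i)) d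
    (fun i _ => hd _)
  simpa [Qv] using this

theorem card_Qs (hE : Conf E) (s : Fin n × Fin l) : (Qs E s).card = l * (N E s).card := by
  unfold Qs
  rw [Finset.card_product, Finset.card_image_of_injOn, Finset.card_univ, Fintype.card_fin,
    mul_comm]
  intro t ht t' ht' h
  exact hE.mat s t t' (mem_N.1 ht) (mem_N.1 ht') h

theorem fam_card (hE : Conf E) (d : ℕ) (hd : ∀ s, (N E s).card ≤ d) (v : Fin n)
    {Q : Finset (Fin n × Fin l)} (hQ : Q ∈ fam E v) : Q.card ≤ l * d := by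
  unfold fam at hQ
  rcases Finset.mem_insert.1 hQ with rfl | hQ
  · exact card_Qv_le E d hd v
  · obtain ⟨i, _, rfl⟩ := Finset.mem_image.1 hQ
    rw [card_Qs E hE]
    exact Nat.mul_le_mul_left _ (hd _)

theorem fam_mem (v : Fin n) {Q : Finset (Fin n × Fin l)} (hQ : Q ∈ fam E v)
    {x : Fin n × Fin l} (hx : x ∈ Q) : x.1 ∈ nbV E v := by
  unfold fam at hQ
  rcases Finset.mem_insert.1 hQ with rfl | hQ
  · obtain ⟨i, _, hi⟩ := Finset.mem_biUnion.1 hx
    exact (mem_nbV E).2 (Or.inr ⟨i, x.2, mem_N.1 hi⟩)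
  · obtain ⟨i, _, rfl⟩ := Finset.mem_image.1 hQ
    unfold Qs at hx
    obtain ⟨t, ht, htx⟩ := Finset.mem_image.1 (Finset.mem_product.1 hx).1
    rw [← htx]
    exact (mem_nbV E).2 (Or.inr ⟨i, t.2, mem_N.1 ht⟩)

/-- the bad event at `v` -/
def Bad (d : ℕ) (p X : ℝ) (v : Fin n) (ω : Om n l) : Prop :=
  ∃ Q ∈ fam E v, X < |FQ E Q ω - p * ((1 - p) ^ d * Q.card)|

theorem Ind_kept {i : Idx n l} {v : Fin n} (hi : i ∉ Sv E v) {x : Fin n × Fin l}
    (hx : x.1 ∈ nbV E v) : Ind i (ev (kept E x)) := by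
  have hi' : att i ∉ B2 E v := hi
  have h0 : ∀ w, w ∈ nbV E x.1 → att i ≠ w := fun w hw h =>
    hi' (h ▸ (mem_B2 E).2 ⟨x.1, hx, hw⟩)
  intro ω a
  rw [kept_eq]
  show ev _ _ * ev _ _ = ev _ _ * ev _ _
  rw [Ind_free (E := E) (s := x) ?_ ?_ ω a, Ind_pick ?_ ω a]
  · rintro rfl
    exact h0 x.1 (self_mem_nbV E _) rfl
  · rintro rfl
    exact h0 x.1 (self_mem_nbV E _) rfl
  · rintro t ht rfl
    refine h0 t.1 ((mem_nbV E).2 (Or.inr ⟨x.2, t.2, ?_⟩)) rfl
    exact mem_N.1 (Finset.mem_filter.1 ht).1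

theorem Ind_Bad (d : ℕ) (p X : ℝ) (v : Fin n) (i : Idx n l) (hi : i ∉ Sv E v) :
    Ind i (ev (Bad E d p X v)) := by
  intro ω a
  refine ev_congr ?_
  unfold Bad
  refine exists_congr fun Q => and_congr_right fun hQ => ?_
  have h : FQ E Q (Function.update ω i a) = FQ E Q ω := by
    unfold FQ
    refine Finset.sum_congr rfl fun x hx => Ind_kept E hi (fam_mem E v hQ hx) ω a
  rw [h]

theorem ev_exists_le {I A K : Type*} [DecidableEq I] (T : Finset K) (F : K → (I → A) → Prop)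
    (ω : I → A) : ev (fun ω => ∃ k ∈ T, F k ω) ω ≤ ∑ k ∈ T, ev (F k) ω := by
  by_cases h : ∃ k ∈ T, F k ω
  · obtain ⟨k, hk, hF⟩ := h
    have h1 := Finset.single_le_sum (f := fun k => ev (F k) ω) (fun k _ => ev_nonneg _ _) hk
    have h2 : ev (F k) ω = 1 := ev_true hF
    have h3 := ev_le_one (fun ω => ∃ k ∈ T, F k ω) ω
    linarith
  · rw [ev_false (E := fun ω => ∃ k ∈ T, F k ω) h]
    exact Finset.sum_nonneg fun k _ => ev_nonneg _ _

theorem exists_good (hE : Conf E) (d : ℕ) {p : ℝ} (hp : p = 1 / (2 * l))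
    (hd : ∀ s, (N E s).card ≤ d) (h32 : 32 ≤ d) (hdl : d ≤ l) (hl16 : l ≤ 16 * d) (X : ℝ)
    (hX0 : 0 ≤ X) (hX : X ≤ d / 8)
    (hnum : 16 * ((1 : ℝ) + l) * (1 + l * d) ^ 4 * exp (-(X ^ 2 / (8 * d))) ≤ 1) :
    ∃ ω : Om n l, ∀ v, ∀ Q ∈ fam E v, |FQ E Q ω - p * ((1 - p) ^ d * Q.card)| ≤ X := by
  classical
  have hl0 : (1 : ℝ) ≤ l := by
    have : 1 ≤ l := by omega
    exact_mod_cast this
  have hp0 : 0 ≤ p := by rw [hp]; positivity
  have hp1 : p ≤ 1 := by
    rw [hp, div_le_one (by positivity)]; linarith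
  have hlp : l * p ≤ 1 := by
    rw [hp]
    have : (l : ℝ) * (1 / (2 * l)) = 1 / 2 := by field_simp
    rw [this]; norm_num
  set q : ℝ := (l + 1) * (4 * exp (-(X ^ 2 / (8 * d)))) with hq
  have hexp : 0 < exp (-(X ^ 2 / (8 * (d : ℝ)))) := exp_pos _
  have h := local_lemma (Pr E d p hp0 hp1 hlp) (all n l) (fun _ => Option.none) (Bad E d p X) (Sv E) (nb E)
    (fun v i hi => Ind_Bad E d p X v i hi) (fun v u => disj_Sv E hE v u)
    ((1 + l * d) * (1 + l * d) * ((1 + l * d) * (1 + l * d))) (card_nb_le E d hd) q ?_ ?_ ?_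
    univ
  · obtain ⟨ω, hω⟩ := h
    refine ⟨ω, fun v Q hQ => ?_⟩
    by_contra hcon
    exact hω v (Finset.mem_univ _) ⟨Q, hQ, lt_of_not_ge hcon⟩
  · intro v
    have h1 : ∀ ω, ev (Bad E d p X v) ω ≤
        ∑ Q ∈ fam E v, ev (fun ω => X < |FQ E Q ω - p * ((1 - p) ^ d * Q.card)|) ω := fun ω =>
      ev_exists_le (fam E v) (fun Q ω => X < |FQ E Q ω - p * ((1 - p) ^ d * Q.card)|) ω
    have h2 := (Pr E d p hp0 hp1 hlp).av_mono (all n l) h1 (fun _ => Option.none)
    rw [PW.av_sum] at h2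
    refine h2.trans ?_
    have h3 := Finset.sum_le_card_nsmul (fam E v)
      (fun Q => (Pr E d p hp0 hp1 hlp).av (all n l)
        (ev (fun ω => X < |FQ E Q ω - p * ((1 - p) ^ d * Q.card)|)) (fun _ => Option.none))
      (4 * exp (-(X ^ 2 / (8 * d))))
      (fun Q hQ => tail E hE d hp0 hp1 hlp hp hd h32 hdl hl16 Q (fam_card E hE d hd v hQ) X hX0 hX _)
    refine h3.trans ?_
    rw [nsmul_eq_mul, hq]
    have h4 : ((fam E v).card : ℝ) ≤ l + 1 := by exact_mod_cast card_fam_le E v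
    exact mul_le_mul_of_nonneg_right h4 (by positivity)
  · push_cast
    have : 4 * q * ((1 + (l : ℝ) * d) * (1 + l * d) * ((1 + l * d) * (1 + l * d))) =
        16 * ((1 : ℝ) + l) * (1 + l * d) ^ 4 * exp (-(X ^ 2 / (8 * d))) := by
      rw [hq]; ring
    rw [this]; exact hnum
  · have h5 : (1 : ℝ) ≤ (1 + l * d) ^ 4 := one_le_pow₀ (by
      have : (0 : ℝ) ≤ l * d := by positivity
      linarith)
    have h6 : 16 * ((1 : ℝ) + l) * exp (-(X ^ 2 / (8 * d))) ≤
        16 * ((1 : ℝ) + l) * (1 + l * d) ^ 4 * exp (-(X ^ 2 / (8 * d))) := by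
      have h7 : 0 ≤ 16 * ((1 : ℝ) + l) * exp (-(X ^ 2 / (8 * d))) := by positivity
      calc 16 * ((1 : ℝ) + l) * exp (-(X ^ 2 / (8 * d)))
          = 16 * ((1 : ℝ) + l) * exp (-(X ^ 2 / (8 * d))) * 1 := by ring
        _ ≤ 16 * ((1 : ℝ) + l) * exp (-(X ^ 2 / (8 * d))) * (1 + l * d) ^ 4 :=
          mul_le_mul_of_nonneg_left h5 h7
        _ = _ := by ring
    have : 4 * q = 16 * ((1 : ℝ) + l) * exp (-(X ^ 2 / (8 * d))) := by rw [hq]; ring
    rw [this]; linarith

end Pool.Agent.Helper96.NB
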