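import Pool.Agent.Helper96.NB.Space

/-!
# Concentration of the number of kept slots
-/

namespace Pool.Agent.Helper96.NB

set_option linter.unusedSectionVars false

open Finset PW Real

variable {n l : ℕ}

/-- number of kept slots in `Q` -/
noncomputable def FQ (E : Fin n × Fin l → Fin n × Fin l → Prop) (Q : Finset (Fin n × Fin l))
    (ω : Om n l) : ℝ := ∑ s ∈ Q, ev (kept E s) ω

/-- number of free slots in `Q` -/
noncomputable def YQ (E : Fin n × Fin l → Fin n × Fin l → Prop) (Q : Finset (Fin n × Fin l))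
    (ω : Om n l) : ℝ := ∑ s ∈ Q, ev (free E s) ω

theorem Ind_free {E : Fin n × Fin l → Fin n × Fin l → Prop} {i : Idx n l} {s : Fin n × Fin l}
    (h1 : i ≠ Sum.inr s) (h2 : ∀ t ∈ early E s, i ≠ Sum.inl t.1) : Ind i (ev (free E s)) := by
  intro ω a
  rw [free_eq]
  show ev _ _ * ev _ _ = ev _ _ * ev _ _
  rw [Ind_coin h1 ω a, Ind_notpicks h2 ω a]

theorem Ind_free_pick {E : Fin n × Fin l → Fin n × Fin l → Prop} {v : Fin n} {s : Fin n × Fin l}
    (h : s.1 ≤ v) : Ind (Sum.inl v) (ev (free E s)) := by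
  refine Ind_free (by simp) fun t ht htv => ?_
  have h1 : t.1 < s.1 := (Finset.mem_filter.1 ht).2
  have h2 : v = t.1 := Sum.inl_injective htv
  rw [← h2] at h1
  exact absurd h (not_le.2 h1)

theorem Ind_kept_pick {E : Fin n × Fin l → Fin n × Fin l → Prop} {v : Fin n} {s : Fin n × Fin l}
    (h : s.1 < v) : Ind (Sum.inl v) (ev (kept E s)) := by
  intro ω a
  rw [kept_eq]
  show ev _ _ * ev _ _ = ev _ _ * ev _ _
  rw [Ind_free_pick h.le ω a, Ind_pick (by
    intro hh
    have := Sum.inl_injective hh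
    exact absurd this h.ne') ω a]

/-- the martingale difference at vertex `v` -/
noncomputable def Gv (E : Fin n × Fin l → Fin n × Fin l → Prop) (p : ℝ)
    (Q : Finset (Fin n × Fin l)) (v : Fin n) (ω : Om n l) : ℝ :=
  ∑ s ∈ Q.filter (fun s => s.1 = v), (ev (kept E s) ω - p * ev (free E s) ω)

section

variable (E : Fin n × Fin l → Fin n × Fin l → Prop) (d : ℕ) {p : ℝ} (hp0 : 0 ≤ p) (hp1 : p ≤ 1)
  (hlp : l * p ≤ 1)

theorem avg_Gv (Q : Finset (Fin n × Fin l)) (v : Fin n) (ω : Om n l) :
    (Pr E d p hp0 hp1 hlp).avg (Sum.inl v) (Gv E p Q v) ω = 0 := by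
  have h : (Pr E d p hp0 hp1 hlp).av [Sum.inl v] (Gv E p Q v) ω = 0 := by
    unfold Gv
    rw [PW.av_sum]
    refine Finset.sum_eq_zero fun s hs => ?_
    have hsv : s.1 = v := (Finset.mem_filter.1 hs).2
    rw [PW.av_sub, PW.av_smul, kept_eq]
    rw [PW.av_mul_left _ [Sum.inl v] (f := ev (free E s))]
    · have h1 : (Pr E d p hp0 hp1 hlp).av [Sum.inl v] (ev (pick s)) ω = p := by
        subst hsv
        exact avg_pick E d hp0 hp1 hlp s ω
      rw [h1, PW.av_ind _ [Sum.inl v]]
      · ring
      · intro i hi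
        rw [List.mem_singleton] at hi
        rw [hi]; exact Ind_free_pick hsv.le
    · intro i hi
      rw [List.mem_singleton] at hi
      rw [hi]; exact Ind_free_pick hsv.le
  exact h

theorem Gv_diff (Q : Finset (Fin n × Fin l)) (v : Fin n) (ω : Om n l) (a : Option (Fin l)) :
    |Gv E p Q v (Function.update ω (Sum.inl v) a) -
      Gv E p Q v (Function.update ω (Sum.inl v) none)| ≤
    (match a with
      | none => 0
      | some i => if (v, i) ∈ Q then 1 else 0) := by
  have hfree : ∀ s ∈ Q.filter (fun s => s.1 = v), ∀ b,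
      ev (free E s) (Function.update ω (Sum.inl v) b) = ev (free E s) ω := fun s hs b =>
    Ind_free_pick (Finset.mem_filter.1 hs).2.le ω b
  have hval : ∀ b, Gv E p Q v (Function.update ω (Sum.inl v) b) =
      ∑ s ∈ Q.filter (fun s => s.1 = v),
        (ev (free E s) ω * (if b = some s.2 then 1 else 0) - p * ev (free E s) ω) := by
    intro b
    unfold Gv
    refine Finset.sum_congr rfl fun s hs => ?_
    rw [hfree s hs b, kept_eq]
    show ev _ _ * ev _ _ - _ = _
    rw [hfree s hs b]
    congr 2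
    have hsv : s.1 = v := (Finset.mem_filter.1 hs).2
    unfold ev pick
    rw [hsv]
    simp
  rw [hval, hval, ← Finset.sum_sub_distrib]
  have hterm : ∀ s ∈ Q.filter (fun s => s.1 = v),
      (ev (free E s) ω * (if a = some s.2 then 1 else 0) - p * ev (free E s) ω) -
        (ev (free E s) ω * (if (none : Option (Fin l)) = some s.2 then 1 else 0) -
          p * ev (free E s) ω) = ev (free E s) ω * (if a = some s.2 then 1 else 0) := by
    intro s _
    simp
  rw [Finset.sum_congr rfl hterm]
  rcases a with _ | i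
  · simp
  · simp only [Option.some.injEq]
    by_cases hi : (v, i) ∈ Q
    · rw [if_pos hi, Finset.sum_eq_single (v, i)]
      · simp only [if_true, mul_one]
        rw [abs_of_nonneg (ev_nonneg _ _)]
        exact ev_le_one _ _
      · intro s hs hne
        have hsv : s.1 = v := (Finset.mem_filter.1 hs).2
        rw [if_neg, mul_zero]
        rintro rfl
        exact hne (Prod.ext hsv rfl)
      · intro hn
        exact absurd ((Finset.mem_filter.2 ⟨hi, rfl⟩ :
          (v, i) ∈ Q.filter (fun s => s.1 = v))) hn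
    · rw [if_neg hi, Finset.sum_eq_zero]
      · simp
      · intro s hs
        rw [if_neg, mul_zero]
        rintro rfl
        have hm := Finset.mem_filter.1 hs
        apply hi
        rw [← hm.2]
        exact hm.1

theorem step_Gv (Q : Finset (Fin n × Fin l)) (v : Fin n) (lam : ℝ) (hlam : |lam| ≤ 1)
    (ω : Om n l) :
    (Pr E d p hp0 hp1 hlp).avg (Sum.inl v) (fun ω => exp (lam * Gv E p Q v ω)) ω ≤
      exp (lam ^ 2 * (p * (Q.filter (fun s => s.1 = v)).card)) := by
  have h := mgf_one (Pr E d p hp0 hp1 hlp) (Sum.inl v) (Gv E p Q v) none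
    (fun a => match a with
      | none => (0 : ℝ)
      | some i => if (v, i) ∈ Q then 1 else 0) lam 0
    (fun ω a _ => Gv_diff E Q v ω a) ?_ ω
  · rw [avg_Gv] at h
    have e : (fun ω => exp (lam * Gv E p Q v ω + 0)) = fun ω => exp (lam * Gv E p Q v ω) := by
      funext ω; rw [add_zero]
    rw [e] at h
    refine h.trans (le_of_eq ?_)
    congr 1
    rw [mul_zero, zero_add, add_zero]
    congr 1
    show ∑ a ∈ (univ : Finset (Option (Fin l))), wt E d p (Sum.inl v) a * _ = _
    rw [Fintype.sum_option]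
    simp only [wt]
    have hc : ((Q.filter (fun s => s.1 = v)).card : ℝ) =
        ∑ i : Fin l, (if (v, i) ∈ Q then (1 : ℝ) else 0) := by
      rw [Finset.sum_boole]
      norm_cast
      refine Finset.card_bij (fun s _ => s.2) ?_ ?_ ?_
      · intro s hs
        have hm := Finset.mem_filter.1 hs
        refine Finset.mem_filter.2 ⟨Finset.mem_univ _, ?_⟩
        rw [← hm.2]; exact hm.1
      · intro s hs s' hs' h
        exact Prod.ext ((Finset.mem_filter.1 hs).2.trans (Finset.mem_filter.1 hs').2.symm) h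
      · intro i hi
        exact ⟨(v, i), Finset.mem_filter.2 ⟨(Finset.mem_filter.1 hi).2, rfl⟩, rfl⟩
    rw [hc, Finset.mul_sum]
    simp only [ne_eq, OfNat.ofNat_ne_zero, not_false_eq_true, zero_pow, mul_zero, zero_add]
    refine Finset.sum_congr rfl fun i _ => ?_
    split_ifs <;> simp
  · intro a _
    rcases a with _ | i
    · simp
    · show |lam| * (if (v, i) ∈ Q then 1 else 0) ≤ 1
      split_ifs
      · simpa using hlam
      · simp

theorem sum_Gv (Q : Finset (Fin n × Fin l)) (ω : Om n l) :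
    ∑ v : Fin n, Gv E p Q v ω = FQ E Q ω - p * YQ E Q ω := by
  unfold Gv FQ YQ
  rw [Finset.mul_sum, ← Finset.sum_sub_distrib]
  exact Finset.sum_fiberwise Q (fun s => s.1) _

theorem bound1 (Q : Finset (Fin n × Fin l)) (lam : ℝ) (hlam : |lam| ≤ 1) (ω : Om n l) :
    (Pr E d p hp0 hp1 hlp).av (all n l) (fun ω => exp (lam * (FQ E Q ω - p * YQ E Q ω))) ω ≤
      exp (lam ^ 2 * (p * Q.card)) := by
  set P := Pr E d p hp0 hp1 hlp with hP
  set g : Idx n l → Om n l → ℝ := fun i ω => match i with
    | Sum.inl v => lam * Gv E p Q v ω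
    | Sum.inr _ => 0 with hg
  set vv : Idx n l → ℝ := fun i => match i with
    | Sum.inl v => lam ^ 2 * (p * (Q.filter (fun s => s.1 = v)).card)
    | Sum.inr _ => 0 with hvv
  have h1 : ∀ ω, P.av (picks n l) (fun ω => exp (((picks n l).map (fun i => g i ω)).sum)) ω ≤
      exp (((picks n l).map vv).sum) := by
    intro ω
    refine mgf_adapted P g vv (picks n l) ?_ ?_ ω
    · unfold picks
      rw [List.pairwise_map]
      refine (List.pairwise_lt_finRange n).imp ?_
      intro u v huv ω a
      show lam * Gv E p Q u _ = lam * Gv E p Q u ω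
      congr 1
      unfold Gv
      refine Finset.sum_congr rfl fun s hs => ?_
      have hsu : s.1 = u := (Finset.mem_filter.1 hs).2
      rw [Ind_kept_pick (hsu.trans_lt huv) ω a, Ind_free_pick (hsu.trans_lt huv).le ω a]
    · intro i hi ω
      unfold picks at hi
      rw [List.mem_map] at hi
      obtain ⟨v, _, rfl⟩ := hi
      exact step_Gv E d hp0 hp1 hlp Q v lam hlam ω
  have e1 : ∀ ω, ((picks n l).map (fun i => g i ω)).sum = lam * (FQ E Q ω - p * YQ E Q ω) := by
    intro ω
    rw [← sum_Gv, Finset.mul_sum, Fin.sum_univ_def]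
    unfold picks
    rw [List.map_map]
    rfl
  have e2 : ((picks n l).map vv).sum = lam ^ 2 * (p * Q.card) := by
    have hc : (Q.card : ℝ) = ∑ v : Fin n, ((Q.filter (fun s => s.1 = v)).card : ℝ) := by
      rw [Finset.card_eq_sum_card_fiberwise (f := fun s : Fin n × Fin l => s.1) (t := univ)
        (fun _ _ => Finset.mem_coe.2 (Finset.mem_univ _))]
      push_cast
      rfl
    rw [hc, Finset.mul_sum, Finset.mul_sum, Fin.sum_univ_def]
    unfold picks
    rw [List.map_map]
    rfl
  simp only [e1, e2] at h1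
  unfold all
  rw [PW.av_append]
  have h2 := P.av_mono (coins n l) h1 ω
  rwa [PW.av_const] at h2

theorem av_YQ (hE : Conf E) (Q : Finset (Fin n × Fin l)) (hd : ∀ s, (N E s).card ≤ d)
    (ω : Om n l) :
    (Pr E d p hp0 hp1 hlp).av (all n l) (YQ E Q) ω = (1 - p) ^ d * Q.card := by
  unfold YQ
  rw [PW.av_sum, Finset.sum_congr rfl fun s _ => av_free E d hp0 hp1 hlp hE (hd s) ω]
  rw [Finset.sum_const, nsmul_eq_mul, mul_comm]

end

end Pool.Agent.Helper96.NB
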