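import Pool.Agent.Helper96.NB.Conc

/-!
# Concentration of the number of free slots, tail bounds
-/

namespace Pool.Agent.Helper96.NB

set_option linter.unusedSectionVars false

open Finset PW Real

variable {n l : ℕ}

/-- the difference bound for `YQ` -/
noncomputable def yb (E : Fin n × Fin l → Fin n × Fin l → Prop) (Q : Finset (Fin n × Fin l)) :
    Idx n l → Option (Fin l) → ℝ
  | Sum.inl _, none => 0
  | Sum.inl v, some i => (Q.filter (fun s => s ∈ N E (v, i))).card
  | Sum.inr _, none => 0
  | Sum.inr s, some _ => if s ∈ Q then 1 else 0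

variable (E : Fin n × Fin l → Fin n × Fin l → Prop)

theorem ev_diff_le (F : Om n l → Prop) (ω ω' : Om n l) : |ev F ω - ev F ω'| ≤ 1 := by
  rw [abs_le]
  have h1 := ev_nonneg F ω
  have h2 := ev_nonneg F ω'
  have h3 := ev_le_one F ω
  have h4 := ev_le_one F ω'
  constructor <;> linarith

theorem YQ_diff (hE : Conf E) (Q : Finset (Fin n × Fin l)) (i : Idx n l) (ω : Om n l)
    (a : Option (Fin l)) :
    |YQ E Q (Function.update ω i a) - YQ E Q (Function.update ω i none)| ≤ yb E Q i a := by
  unfold YQ
  rw [← Finset.sum_sub_distrib]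
  rcases i with v | s
  · rcases a with _ | j
    · simp [yb]
    · have h1 : ∑ s ∈ Q, (ev (free E s) (Function.update ω (Sum.inl v) (some j)) -
          ev (free E s) (Function.update ω (Sum.inl v) none)) =
          ∑ s ∈ Q.filter (fun s => s ∈ N E (v, j)),
            (ev (free E s) (Function.update ω (Sum.inl v) (some j)) -
              ev (free E s) (Function.update ω (Sum.inl v) none)) := by
        rw [Finset.sum_filter]
        refine Finset.sum_congr rfl fun s _ => ?_
        split_ifs with hs
        · rfl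
        · rw [sub_eq_zero]
          refine ev_congr ?_
          unfold free
          have e1 : (Function.update ω (Sum.inl v) (some j)) (Sum.inr s) = none ↔
              (Function.update ω (Sum.inl v) none) (Sum.inr s) = none := by simp
          rw [e1]
          refine and_congr_right fun _ => forall_congr' fun t => ?_
          refine imp_congr_right fun ht => not_congr ?_
          unfold pick
          by_cases htv : t.1 = v
          · rw [htv, Function.update_self, Function.update_self]
            have hjt : j ≠ t.2 := by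
              rintro rfl
              apply hs
              rw [mem_N]
              have h2 : E s t := mem_N.1 (Finset.mem_filter.1 ht).1
              have h3 : t = (v, t.2) := Prod.ext htv rfl
              rw [← h3]
              exact hE.symm _ _ h2
            simp [hjt]
          · have h4 : (Sum.inl t.1 : Idx n l) ≠ Sum.inl v := fun h => htv (Sum.inl_injective h)
            rw [Function.update_of_ne h4, Function.update_of_ne h4]
      rw [h1]
      refine (Finset.abs_sum_le_sum_abs _ _).trans ?_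
      refine (Finset.sum_le_sum fun s _ => ev_diff_le _ _ _).trans ?_
      simp [yb]
  · rcases a with _ | j
    · simp [yb]
    · have h0 : ∀ t, t ≠ s → ev (free E t) (Function.update ω (Sum.inr s) (some j)) -
          ev (free E t) (Function.update ω (Sum.inr s) none) = 0 := by
        intro t hts
        have h2 : Ind (Sum.inr s : Idx n l) (ev (free E t)) :=
          Ind_free (fun h => hts (Sum.inr_injective h).symm) (by simp)
        rw [h2 ω (some j), h2 ω none, sub_self]
      by_cases hs : s ∈ Q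
      · rw [Finset.sum_eq_single s (fun t _ hts => h0 t hts) (fun h => absurd hs h)]
        refine (ev_diff_le _ _ _).trans ?_
        simp [yb, hs]
      · rw [Finset.sum_eq_zero (fun t ht => h0 t (fun h => hs (h ▸ ht)))]
        simp [yb, hs]

variable (d : ℕ) {p : ℝ} (hp0 : 0 ≤ p) (hp1 : p ≤ 1) (hlp : l * p ≤ 1)

theorem card_filter_N_le (Q : Finset (Fin n × Fin l)) (hd : ∀ s, (N E s).card ≤ d)
    (x : Fin n × Fin l) : (Q.filter (fun s => s ∈ N E x)).card ≤ d := by
  refine le_trans (Finset.card_le_card ?_) (hd x)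
  intro s hs
  exact (Finset.mem_filter.1 hs).2

theorem sum_card_filter_N (hE : Conf E) (Q : Finset (Fin n × Fin l)) (hd : ∀ s, (N E s).card ≤ d) :
    ∑ x : Fin n × Fin l, ((Q.filter (fun s => s ∈ N E x)).card : ℝ) ≤ Q.card * d := by
  have h1 : ∑ x : Fin n × Fin l, ((Q.filter (fun s => s ∈ N E x)).card : ℝ) =
      ∑ s ∈ Q, ((N E s).card : ℝ) := by
    simp_rw [Finset.card_filter]
    push_cast
    rw [Finset.sum_comm]
    refine Finset.sum_congr rfl fun s _ => ?_
    rw [Finset.sum_boole]
    congr 2
    ext x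
    simp only [Finset.mem_filter, Finset.mem_univ, true_and, mem_N]
    exact ⟨fun h => hE.symm _ _ h, fun h => hE.symm _ _ h⟩
  rw [h1]
  have := Finset.sum_le_card_nsmul Q (fun s => ((N E s).card : ℝ)) d
    (fun s _ => by exact_mod_cast hd s)
  simpa [nsmul_eq_mul] using this

theorem var_le (hE : Conf E) (Q : Finset (Fin n × Fin l)) (hd : ∀ s, (N E s).card ≤ d) :
    ((all n l).map (fun i => ∑ a ∈ (Pr E d p hp0 hp1 hlp).supp i,
      (Pr E d p hp0 hp1 hlp).w i a * (yb E Q i a) ^ 2)).sum ≤
      p * d ^ 2 * Q.card + Q.card := by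
  have h1 : ∀ v : Fin n, ∑ a ∈ (Pr E d p hp0 hp1 hlp).supp (Sum.inl v),
      (Pr E d p hp0 hp1 hlp).w (Sum.inl v) a * (yb E Q (Sum.inl v) a) ^ 2 =
      ∑ i : Fin l, p * ((Q.filter (fun s => s ∈ N E (v, i))).card : ℝ) ^ 2 := by
    intro v
    show ∑ a ∈ (univ : Finset (Option (Fin l))), wt E d p (Sum.inl v) a * _ = _
    rw [Fintype.sum_option]
    simp [wt, yb]
  have h2 : ∀ s : Fin n × Fin l, ∑ a ∈ (Pr E d p hp0 hp1 hlp).supp (Sum.inr s),
      (Pr E d p hp0 hp1 hlp).w (Sum.inr s) a * (yb E Q (Sum.inr s) a) ^ 2 ≤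
      if s ∈ Q then 1 else 0 := by
    intro s
    have h3 := (Pr E d p hp0 hp1 hlp).total (Sum.inr s)
    by_cases hs : s ∈ Q
    · rw [if_pos hs, ← h3]
      refine Finset.sum_le_sum fun a _ => ?_
      have h4 : (yb E Q (Sum.inr s) a) ^ 2 ≤ 1 := by
        rcases a with _ | j <;> simp [yb, hs]
      exact mul_le_of_le_one_right ((Pr E d p hp0 hp1 hlp).nonneg _ _) h4
    · rw [if_neg hs]
      refine le_of_eq (Finset.sum_eq_zero fun a _ => ?_)
      rcases a with _ | j <;> simp [yb, hs]
  unfold all
  rw [List.map_append, List.sum_append]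
  have h5 : ((picks n l).map (fun i => ∑ a ∈ (Pr E d p hp0 hp1 hlp).supp i,
      (Pr E d p hp0 hp1 hlp).w i a * (yb E Q i a) ^ 2)).sum ≤ p * d ^ 2 * Q.card := by
    unfold picks
    rw [List.map_map]
    have e1 : ((List.finRange n).map ((fun i => ∑ a ∈ (Pr E d p hp0 hp1 hlp).supp i,
        (Pr E d p hp0 hp1 hlp).w i a * (yb E Q i a) ^ 2) ∘ Sum.inl)).sum =
        ∑ v : Fin n, ∑ i : Fin l, p * ((Q.filter (fun s => s ∈ N E (v, i))).card : ℝ) ^ 2 := by
      rw [Fin.sum_univ_def]
      congr 1
      refine List.map_congr_left fun v _ => ?_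
      exact h1 v
    rw [e1, ← Fintype.sum_prod_type']
    have e2 : ∑ x : Fin n × Fin l, p * ((Q.filter (fun s => s ∈ N E x)).card : ℝ) ^ 2 ≤
        ∑ x : Fin n × Fin l, p * d * ((Q.filter (fun s => s ∈ N E x)).card : ℝ) := by
      refine Finset.sum_le_sum fun x _ => ?_
      have h6 : ((Q.filter (fun s => s ∈ N E x)).card : ℝ) ≤ d := by
        exact_mod_cast card_filter_N_le E d Q hd x
      have h7 : (0 : ℝ) ≤ ((Q.filter (fun s => s ∈ N E x)).card : ℝ) := Nat.cast_nonneg _
      have h8 : ((Q.filter (fun s => s ∈ N E x)).card : ℝ) ^ 2 ≤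
          d * ((Q.filter (fun s => s ∈ N E x)).card : ℝ) := by nlinarith
      have := mul_le_mul_of_nonneg_left h8 hp0
      linarith
    refine e2.trans ?_
    rw [← Finset.mul_sum]
    have h9 := mul_le_mul_of_nonneg_left (sum_card_filter_N E d hE Q hd)
      (mul_nonneg hp0 (Nat.cast_nonneg d))
    refine h9.trans (le_of_eq (by ring))
  have h10 : ((coins n l).map (fun i => ∑ a ∈ (Pr E d p hp0 hp1 hlp).supp i,
      (Pr E d p hp0 hp1 hlp).w i a * (yb E Q i a) ^ 2)).sum ≤ Q.card := by
    unfold coins
    rw [List.map_map]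
    have e1 : ((univ : Finset (Fin n × Fin l)).toList.map
        ((fun i => ∑ a ∈ (Pr E d p hp0 hp1 hlp).supp i,
        (Pr E d p hp0 hp1 hlp).w i a * (yb E Q i a) ^ 2) ∘ Sum.inr)).sum =
        ∑ s : Fin n × Fin l, ∑ a ∈ (Pr E d p hp0 hp1 hlp).supp (Sum.inr s),
        (Pr E d p hp0 hp1 hlp).w (Sum.inr s) a * (yb E Q (Sum.inr s) a) ^ 2 :=
      Finset.sum_map_toList _ _
    rw [e1]
    refine (Finset.sum_le_sum fun s _ => h2 s).trans (le_of_eq ?_)
    simp
  linarith

theorem bound2 (hE : Conf E) (Q : Finset (Fin n × Fin l)) (hd : ∀ s, (N E s).card ≤ d)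
    (hd1 : 1 ≤ d) (mu : ℝ) (hmu : |mu| * d ≤ 1) (ω : Om n l) :
    (Pr E d p hp0 hp1 hlp).av (all n l)
      (fun ω => exp (mu * (YQ E Q ω - (1 - p) ^ d * Q.card))) ω ≤
      exp (mu ^ 2 * (p * d ^ 2 * Q.card + Q.card)) := by
  set P := Pr E d p hp0 hp1 hlp with hP
  have h := mgf_bdd P (YQ E Q) (fun _ => none) (yb E Q) mu (all n l) nodup_all
    (fun i _ ω a _ => YQ_diff E hE Q i ω a) ?_ ω
  · rw [av_YQ E d hp0 hp1 hlp hE Q hd] at h
    have e : (fun ω => exp (mu * (YQ E Q ω - (1 - p) ^ d * Q.card))) =
        fun ω => exp (-(mu * ((1 - p) ^ d * Q.card))) * exp (mu * YQ E Q ω) := by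
      funext ω
      rw [← Real.exp_add]; congr 1; ring
    rw [e, PW.av_smul]
    refine (mul_le_mul_of_nonneg_left h (exp_pos _).le).trans ?_
    rw [← Real.exp_add, Real.exp_le_exp]
    have := mul_le_mul_of_nonneg_left (var_le E d hp0 hp1 hlp hE Q hd) (sq_nonneg mu)
    linarith
  · intro i _ a _
    have hy : yb E Q i a ≤ d := by
      rcases i with v | s
      · rcases a with _ | j
        · show (0 : ℝ) ≤ d; positivity
        · show ((Q.filter (fun s => s ∈ N E (v, j))).card : ℝ) ≤ d
          exact_mod_cast card_filter_N_le E d Q hd (v, j)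
      · rcases a with _ | j
        · show (0 : ℝ) ≤ d; positivity
        · show (if s ∈ Q then (1 : ℝ) else 0) ≤ d
          have : (1 : ℝ) ≤ d := by exact_mod_cast hd1
          split_ifs
          · exact this
          · linarith
    exact (mul_le_mul_of_nonneg_left hy (abs_nonneg _)).trans hmu

end Pool.Agent.Helper96.NB
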