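import Pool.Agent.Helper96.NB.Avg

/-!
# Exponential moment bounds on product spaces
-/

namespace Pool.Agent.Helper96.NB

set_option linter.unusedSectionVars false

open Finset PW Real

variable {I A : Type*} [DecidableEq I]

theorem exp_le_quad {x : ℝ} (hx : |x| ≤ 1) : exp x ≤ 1 + x + x ^ 2 := by
  have h := Real.abs_exp_sub_one_sub_id_le hx
  have := (abs_le.1 h).2
  linarith

theorem av_update (P : PW I A) {i : I} (l : List I) (hi : i ∉ l) (f : (I → A) → ℝ) (ω : I → A)
    (a : A) :
    P.av l f (Function.update ω i a) = P.av l (fun ω => f (Function.update ω i a)) ω := by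
  induction l generalizing ω with
  | nil => rfl
  | cons j l ih =>
    have hij : i ≠ j := fun h => hi (h ▸ List.mem_cons_self)
    have hil : i ∉ l := fun h => hi (List.mem_cons_of_mem _ h)
    rw [av_cons, av_cons]
    simp only [avg]
    refine Finset.sum_congr rfl fun b _ => ?_
    rw [Function.update_comm hij, ih hil]

/-- one coordinate -/
theorem mgf_one (P : PW I A) (i : I) (G : (I → A) → ℝ) (b : A) (y : A → ℝ) (lam c : ℝ)
    (hd : ∀ ω, ∀ a ∈ P.supp i, |G (Function.update ω i a) - G (Function.update ω i b)| ≤ y a)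
    (hy : ∀ a ∈ P.supp i, |lam| * y a ≤ 1) (ω : I → A) :
    P.avg i (fun ω => exp (lam * G ω + c)) ω ≤
      exp (lam * P.avg i G ω + lam ^ 2 * (∑ a ∈ P.supp i, P.w i a * (y a) ^ 2) + c) := by
  set g0 := G (Function.update ω i b) with hg0
  set dl : A → ℝ := fun a => G (Function.update ω i a) - g0 with hdl
  have hG : ∀ a, G (Function.update ω i a) = g0 + dl a := fun a => by simp [hdl]
  have h1 : P.avg i (fun ω => exp (lam * G ω + c)) ω =
      exp (lam * g0 + c) * ∑ a ∈ P.supp i, P.w i a * exp (lam * dl a) := by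
    simp only [avg, hG, Finset.mul_sum]
    refine Finset.sum_congr rfl fun a _ => ?_
    rw [show lam * (g0 + dl a) + c = (lam * g0 + c) + lam * dl a by ring, Real.exp_add]; ring
  have h2 : P.avg i G ω = g0 + ∑ a ∈ P.supp i, P.w i a * dl a := by
    simp only [avg, hG, mul_add, Finset.sum_add_distrib, ← Finset.sum_mul, P.total, one_mul]
  have h3 : ∑ a ∈ P.supp i, P.w i a * exp (lam * dl a) ≤
      1 + (lam * (∑ a ∈ P.supp i, P.w i a * dl a) + lam ^ 2 * ∑ a ∈ P.supp i, P.w i a * (y a) ^ 2) := by
    have h4 : ∀ a ∈ P.supp i, P.w i a * exp (lam * dl a) ≤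
        P.w i a + (lam * (P.w i a * dl a) + lam ^ 2 * (P.w i a * (y a) ^ 2)) := by
      intro a ha
      have hda := hd ω a ha
      have hab : |lam * dl a| ≤ 1 := by
        rw [abs_mul]
        exact (mul_le_mul_of_nonneg_left hda (abs_nonneg _)).trans (hy a ha)
      have h5 := exp_le_quad hab
      have h6 : (lam * dl a) ^ 2 ≤ lam ^ 2 * (y a) ^ 2 := by
        rw [mul_pow]
        refine mul_le_mul_of_nonneg_left ?_ (sq_nonneg _)
        exact sq_le_sq' (abs_le.1 hda).1 (abs_le.1 hda).2
      have h7 : P.w i a * exp (lam * dl a) ≤ P.w i a * (1 + lam * dl a + lam ^ 2 * (y a) ^ 2) :=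
        mul_le_mul_of_nonneg_left (by linarith) (P.nonneg i a)
      linarith
    refine (Finset.sum_le_sum h4).trans (le_of_eq ?_)
    rw [Finset.sum_add_distrib, Finset.sum_add_distrib, P.total, Finset.mul_sum, Finset.mul_sum]
  rw [h1, h2]
  calc exp (lam * g0 + c) * ∑ a ∈ P.supp i, P.w i a * exp (lam * dl a)
      ≤ exp (lam * g0 + c) * exp (lam * (∑ a ∈ P.supp i, P.w i a * dl a) +
        lam ^ 2 * ∑ a ∈ P.supp i, P.w i a * (y a) ^ 2) := by
        refine mul_le_mul_of_nonneg_left (h3.trans ?_) (exp_pos _).le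
        have := Real.add_one_le_exp (lam * (∑ a ∈ P.supp i, P.w i a * dl a) +
          lam ^ 2 * ∑ a ∈ P.supp i, P.w i a * (y a) ^ 2)
        linarith
    _ = _ := by rw [← Real.exp_add]; congr 1; ring

theorem mgf_bdd (P : PW I A) (F : (I → A) → ℝ) (b : I → A) (y : I → A → ℝ) (lam : ℝ)
    (l : List I) (hnd : l.Nodup)
    (hd : ∀ i ∈ l, ∀ ω, ∀ a ∈ P.supp i,
      |F (Function.update ω i a) - F (Function.update ω i (b i))| ≤ y i a)
    (hy : ∀ i ∈ l, ∀ a ∈ P.supp i, |lam| * y i a ≤ 1) (ω : I → A) :
    P.av l (fun ω => exp (lam * F ω)) ω ≤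
      exp (lam * P.av l F ω +
        lam ^ 2 * (l.map (fun i => ∑ a ∈ P.supp i, P.w i a * (y i a) ^ 2)).sum) := by
  induction l generalizing ω with
  | nil => simp
  | cons i l ih =>
    rw [List.nodup_cons] at hnd
    have ih' := ih hnd.2 (fun j hj => hd j (List.mem_cons_of_mem _ hj))
      (fun j hj => hy j (List.mem_cons_of_mem _ hj))
    rw [av_cons, av_cons]
    refine (P.avg_mono i ih' ω).trans ?_
    have h := mgf_one P i (P.av l F) (b i) (y i) lam
      (lam ^ 2 * (l.map (fun i => ∑ a ∈ P.supp i, P.w i a * (y i a) ^ 2)).sum) ?_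
      (hy i List.mem_cons_self) ω
    · refine h.trans (le_of_eq ?_)
      rw [List.map_cons, List.sum_cons]
      congr 1; ring
    · intro ω a ha
      rw [av_update P l hnd.1, av_update P l hnd.1, ← P.av_sub, abs_le]
      have hb := fun ω => abs_le.1 (hd i List.mem_cons_self ω a ha)
      constructor
      · have := P.av_mono l (f := fun _ => -(y i a)) (fun ω => (hb ω).1) ω
        rwa [P.av_const] at this
      · have := P.av_mono l (g := fun _ => y i a) (fun ω => (hb ω).2) ω
        rwa [P.av_const] at this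

theorem mgf_adapted (P : PW I A) (g : I → (I → A) → ℝ) (v : I → ℝ) (l : List I)
    (hind : l.Pairwise (fun i j => Ind j (g i)))
    (hstep : ∀ i ∈ l, ∀ ω, P.avg i (fun ω => exp (g i ω)) ω ≤ exp (v i)) (ω : I → A) :
    P.av l (fun ω => exp ((l.map (fun i => g i ω)).sum)) ω ≤ exp ((l.map v).sum) := by
  induction l generalizing ω with
  | nil => simp
  | cons i l ih =>
    rw [List.pairwise_cons] at hind
    have ih' := ih hind.2 (fun j hj => hstep j (List.mem_cons_of_mem _ hj))
    rw [av_cons]
    have h1 : ∀ ω, P.av l (fun ω => exp (((i :: l).map (fun i => g i ω)).sum)) ω ≤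
        exp ((l.map v).sum) * exp (g i ω) := by
      intro ω
      have e : (fun ω => exp (((i :: l).map (fun i => g i ω)).sum)) =
          fun ω => exp (g i ω) * exp ((l.map (fun i => g i ω)).sum) := by
        funext ω
        rw [List.map_cons, List.sum_cons, Real.exp_add]
      rw [e, P.av_mul_left l (f := fun ω => exp (g i ω))]
      · rw [mul_comm]
        exact mul_le_mul_of_nonneg_right (ih' ω) (exp_pos _).le
      · intro j hj ω a
        show exp (g i (Function.update ω j a)) = exp (g i ω)
        rw [hind.1 j hj ω a]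
    refine (P.avg_mono i h1 ω).trans ?_
    rw [P.avg_smul, List.map_cons, List.sum_cons, add_comm, Real.exp_add]
    exact mul_le_mul_of_nonneg_left (hstep i List.mem_cons_self ω) (exp_pos _).le

end Pool.Agent.Helper96.NB
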