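import Pool.Agent.Helper96.NB.Nibble

/-!
# Long lists: the local lemma directly
-/

namespace Pool.Agent.Helper96.NB

set_option linter.unusedSectionVars false

open Finset PW Real

/-- uniform choice of a slot at every vertex -/
noncomputable def Un (n l : ℕ) (hl : 0 < l) : PW (Fin n) (Fin l) where
  supp := fun _ => univ
  w := fun _ _ => 1 / (l : ℝ)
  nonneg := fun _ _ => by positivity
  total := fun _ => by
    have : (l : ℝ) ≠ 0 := by exact_mod_cast hl.ne'
    simp [this]

variable {n l : ℕ}

/-- the conflict event -/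
def Cf (E : Fin n × Fin l → Fin n × Fin l → Prop) (k : (Fin n × Fin l) × (Fin n × Fin l))
    (ω : Fin n → Fin l) : Prop := E k.1 k.2 ∧ ω k.1.1 = k.1.2 ∧ ω k.2.1 = k.2.2

/-- its coordinates -/
def Cs (E : Fin n × Fin l → Fin n × Fin l → Prop) (k : (Fin n × Fin l) × (Fin n × Fin l)) :
    Set (Fin n) := {v | E k.1 k.2 ∧ (v = k.1.1 ∨ v = k.2.1)}

open Classical in
/-- the pairs starting at `a` -/
noncomputable def st (E : Fin n × Fin l → Fin n × Fin l → Prop) (a : Fin n) :
    Finset ((Fin n × Fin l) × (Fin n × Fin l)) :=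
  univ.filter (fun k => E k.1 k.2 ∧ k.1.1 = a)

theorem card_st_le (E : Fin n × Fin l → Fin n × Fin l → Prop) (d : ℕ)
    (hd : ∀ s, (N E s).card ≤ d) (a : Fin n) : (st E a).card ≤ l * d := by
  classical
  have h : st E a ⊆ (univ : Finset (Fin l)).biUnion
      (fun i => (N E (a, i)).image (fun t => ((a, i), t))) := by
    intro k hk
    obtain ⟨h1, h2⟩ := (Finset.mem_filter.1 hk).2
    refine Finset.mem_biUnion.2 ⟨k.1.2, Finset.mem_univ _, Finset.mem_image.2 ⟨k.2, ?_, ?_⟩⟩
    · rw [mem_N, ← h2]; exact h1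
    · rw [← h2]
  refine (Finset.card_le_card h).trans ?_
  have h2 := Finset.card_biUnion_le_card_mul (univ : Finset (Fin l))
    (fun i => (N E (a, i)).image (fun t => ((a, i), t))) d
    (fun i _ => Finset.card_image_le.trans (hd _))
  simpa using h2

theorem ind_ne {i v : Fin n} {j : Fin l} (h : i ≠ v) :
    Ind i (ev (fun ω : Fin n → Fin l => ω v = j)) := by
  intro ω a
  refine ev_congr ?_
  rw [Function.update_of_ne (Ne.symm h)]

theorem finish {d : ℕ} (hd1 : 1 ≤ d) (h16 : 16 * d ≤ l) : Good l d := by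
  classical
  intro n E hE hd
  have hl : 0 < l := by omega
  have hlR : (0 : ℝ) < l := by exact_mod_cast hl
  set P := Un n l hl with hP
  let nbk : (Fin n × Fin l) × (Fin n × Fin l) → Finset ((Fin n × Fin l) × (Fin n × Fin l)) :=
    fun k => (st E k.1.1 ∪ st E k.2.1) ∪ ((st E k.1.1).image Prod.swap ∪ (st E k.2.1).image Prod.swap)
  have hcard : ∀ k, (nbk k).card ≤ 4 * (l * d) := by
    intro k
    have h1 := card_st_le E d hd k.1.1
    have h2 := card_st_le E d hd k.2.1
    have h3 : ((st E k.1.1).image Prod.swap).card ≤ l * d := Finset.card_image_le.trans h1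
    have h4 : ((st E k.2.1).image Prod.swap).card ≤ l * d := Finset.card_image_le.trans h2
    have h5 := Finset.card_union_le (st E k.1.1) (st E k.2.1)
    have h6 := Finset.card_union_le ((st E k.1.1).image Prod.swap) ((st E k.2.1).image Prod.swap)
    have h7 := Finset.card_union_le (st E k.1.1 ∪ st E k.2.1)
      ((st E k.1.1).image Prod.swap ∪ (st E k.2.1).image Prod.swap)
    exact h7.trans (by omega)
  have hnd : (List.finRange n).Nodup := List.nodup_finRange n
  have hone : ∀ (v : Fin n) (j : Fin l) (ω : Fin n → Fin l),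
      P.av (List.finRange n) (ev (fun ω : Fin n → Fin l => ω v = j)) ω = 1 / l := by
    intro v j ω
    rw [av_single P hnd (List.mem_finRange v) (fun i hi => ind_ne hi)]
    unfold avg
    show ∑ a ∈ (univ : Finset (Fin l)), (1 / (l : ℝ)) * _ = _
    rw [Finset.sum_eq_single j]
    · rw [ev_true (by simp), mul_one]
    · intro b _ hb
      rw [ev_false (by simpa using hb), mul_zero]
    · simp
  rcases Nat.eq_zero_or_pos n with hn0 | hn0
  · subst hn0
    exact ⟨fun v => v.elim0, fun v => v.elim0⟩
  have h := local_lemma P (List.finRange n) (fun _ => ⟨0, hl⟩) (Cf E) (Cs E) nbk ?_ ?_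
    (4 * (l * d)) hcard (1 / (l : ℝ) ^ 2) ?_ ?_ ?_ univ
  · obtain ⟨ω, hω⟩ := h
    refine ⟨ω, fun v w hvw => ?_⟩
    exact hω ((v, ω v), (w, ω w)) (Finset.mem_univ _) ⟨hvw, rfl, rfl⟩
  · intro k i hi ω a
    refine ev_congr ?_
    unfold Cf
    refine and_congr_right fun hk => ?_
    have h1 : i ≠ k.1.1 := fun h => hi ⟨hk, Or.inl h⟩
    have h2 : i ≠ k.2.1 := fun h => hi ⟨hk, Or.inr h⟩
    rw [Function.update_of_ne h1.symm, Function.update_of_ne h2.symm]
  · intro k u hu
    rw [Set.disjoint_left]
    rintro v ⟨hEu, hvu⟩ ⟨hEk, hvk⟩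
    apply hu
    have hst : ∀ a, u.1.1 = a → u ∈ st E a := fun a ha => Finset.mem_filter.2
      ⟨Finset.mem_univ _, hEu, ha⟩
    have hsw : ∀ a, u.2.1 = a → u ∈ (st E a).image Prod.swap := fun a ha =>
      Finset.mem_image.2 ⟨u.swap, Finset.mem_filter.2 ⟨Finset.mem_univ _, hE.symm _ _ hEu, ha⟩,
        Prod.swap_swap u⟩
    rcases hvu with h1 | h1 <;> rcases hvk with h2 | h2
    · exact Finset.mem_union_left _ (Finset.mem_union_left _ (hst _ (h1.symm.trans h2)))
    · exact Finset.mem_union_left _ (Finset.mem_union_right _ (hst _ (h1.symm.trans h2)))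
    · exact Finset.mem_union_right _ (Finset.mem_union_left _ (hsw _ (h1.symm.trans h2)))
    · exact Finset.mem_union_right _ (Finset.mem_union_right _ (hsw _ (h1.symm.trans h2)))
  · intro k
    by_cases hk : E k.1 k.2
    · have hne := hE.irr _ _ hk
      have e : ev (Cf E k) = fun ω => ev (fun ω : Fin n → Fin l => ω k.1.1 = k.1.2) ω *
          ev (fun ω : Fin n → Fin l => ω k.2.1 = k.2.2) ω := by
        funext ω
        by_cases h1 : ω k.1.1 = k.1.2
        · by_cases h2 : ω k.2.1 = k.2.2
          · rw [ev_true (E := Cf E k) ⟨hk, h1, h2⟩, ev_true (by simpa using h1),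
              ev_true (by simpa using h2)]; ring
          · rw [ev_false (E := Cf E k) (fun h => h2 h.2.2),
              ev_false (E := fun ω : Fin n → Fin l => ω k.2.1 = k.2.2) h2]; ring
        · rw [ev_false (E := Cf E k) (fun h => h1 h.2.1),
            ev_false (E := fun ω : Fin n → Fin l => ω k.1.1 = k.1.2) h1]; ring
      rw [e, P.av_mul, hone, hone]
      · refine le_of_eq ?_
        rw [pow_two]; field_simp
      · intro i _
        by_cases hi : i = k.1.1
        · right; exact ind_ne (fun h => hne (hi.symm.trans h))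
        · left; exact ind_ne hi
    · have e : ev (Cf E k) = fun _ => 0 := by
        funext ω
        exact ev_false (fun h => hk h.1)
      rw [e, P.av_const]; positivity
  · push_cast
    have h1 : (16 : ℝ) * d ≤ l := by exact_mod_cast h16
    have h2 : 4 * (1 / (l : ℝ) ^ 2) * (4 * (l * d)) = 16 * d / l := by
      field_simp; ring
    rw [h2, div_le_one hlR]; exact h1
  · have h1 : (16 : ℝ) ≤ l := by
      have : 16 ≤ l := by omega
      exact_mod_cast this
    rw [mul_one_div, div_le_one (by positivity)]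
    nlinarith

end Pool.Agent.Helper96.NB
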