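import Pool.Agent.Helper96.NB.Finish

/-!
# Iterating the nibble
-/

namespace Pool.Agent.Helper96.NB

open Real

theorem num_bound {l d : ℕ} (hl16 : l ≤ 16 * d) (h16 : 16 ≤ d) (X : ℝ)
    (hX : X ^ 2 = 121 * (d * log (d + 1))) :
    16 * ((1 : ℝ) + l) * (1 + l * d) ^ 4 * exp (-(X ^ 2 / (8 * d))) ≤ 1 := by
  have hd : (16 : ℝ) ≤ d := by exact_mod_cast h16
  have hl : (l : ℝ) ≤ 16 * d := by exact_mod_cast hl16
  have hl0 : (0 : ℝ) ≤ l := Nat.cast_nonneg _
  have hlog : 0 ≤ log ((d : ℝ) + 1) := Real.log_nonneg (by linarith)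
  have h1 : exp (-(X ^ 2 / (8 * d))) ≤ (((d : ℝ) + 1) ^ 15)⁻¹ := by
    have h2 : (((d : ℝ) + 1) ^ 15)⁻¹ = exp (-(15 * log (d + 1))) := by
      rw [Real.exp_neg, mul_comm, Real.exp_mul, Real.exp_log (by linarith)]
      norm_num
    rw [h2, Real.exp_le_exp, neg_le_neg_iff, hX]
    have h3 : 121 * ((d : ℝ) * log (d + 1)) / (8 * d) = 121 / 8 * log (d + 1) := by
      field_simp
    rw [h3]
    nlinarith
  have h4 : 16 * ((1 : ℝ) + l) * (1 + l * d) ^ 4 ≤ ((d : ℝ) + 1) ^ 15 := by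
    have h5 : (1 : ℝ) + l ≤ 16 * (d + 1) := by linarith
    have h6 : (1 : ℝ) + l * d ≤ 16 * (d + 1) ^ 2 := by nlinarith
    have h7 : ((1 : ℝ) + l * d) ^ 4 ≤ (16 * (d + 1) ^ 2) ^ 4 :=
      pow_le_pow_left₀ (by positivity) h6 4
    have h8 : 16 * ((1 : ℝ) + l) ≤ 16 * (16 * (d + 1)) := by linarith
    have h9 : 16 * ((1 : ℝ) + l) * (1 + l * d) ^ 4 ≤
        16 * (16 * (d + 1)) * (16 * (d + 1) ^ 2) ^ 4 :=
      mul_le_mul h8 h7 (by positivity) (by positivity)
    have h10 : 16 * (16 * ((d : ℝ) + 1)) * (16 * (d + 1) ^ 2) ^ 4 = 16 ^ 6 * (d + 1) ^ 9 := by ring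
    have h11 : (16 : ℝ) ^ 6 ≤ (d + 1) ^ 6 := pow_le_pow_left₀ (by norm_num) (by linarith) 6
    have h12 : (16 : ℝ) ^ 6 * (d + 1) ^ 9 ≤ (d + 1) ^ 6 * (d + 1) ^ 9 :=
      mul_le_mul_of_nonneg_right h11 (by positivity)
    have h13 : ((d : ℝ) + 1) ^ 6 * (d + 1) ^ 9 = (d + 1) ^ 15 := by ring
    linarith
  have hpos : (0 : ℝ) < (d + 1) ^ 15 := by positivity
  calc 16 * ((1 : ℝ) + l) * (1 + l * d) ^ 4 * exp (-(X ^ 2 / (8 * d)))
      ≤ ((d : ℝ) + 1) ^ 15 * (((d : ℝ) + 1) ^ 15)⁻¹ :=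
        mul_le_mul h4 h1 (exp_pos _).le hpos.le
    _ = 1 := mul_inv_cancel₀ hpos.ne'

/-- **Main bound**, correspondence form. -/
theorem good_main : ∀ d : ℕ, 1 ≤ d → ∀ l : ℕ,
    (d : ℝ) + 1400 * √(d * log (d + 1)) ≤ l → Good l d := by
  intro d
  induction d using Nat.strong_induction_on with
  | _ d ih =>
    intro hd1 l hl
    by_cases h16 : 16 * d ≤ l
    · exact finish hd1 h16
    have hlt : (l : ℝ) < 16 * d := by
      have : l < 16 * d := by omega
      exact_mod_cast this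
    have hd1' : (1 : ℝ) ≤ d := by exact_mod_cast hd1
    set L : ℝ := log ((d : ℝ) + 1) with hL
    set R : ℝ := √(d * L) with hR
    have hL2 : log 2 ≤ L := Real.log_le_log (by norm_num) (by linarith)
    have hlog2 : (0.69 : ℝ) < log 2 := by linarith [Real.log_two_gt_d9]
    have hL0 : 0 < L := by linarith
    have hR0 : 0 ≤ R := Real.sqrt_nonneg _
    have hR2 : R ^ 2 = d * L := Real.sq_sqrt (by positivity)
    have hRlt : 1400 * R < 15 * d := by linarith
    have hdbig : (6000 : ℝ) ≤ d := by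
      have h1 : (1400 * R) ^ 2 < (15 * d) ^ 2 := by
        apply pow_lt_pow_left₀ hRlt (by positivity) (by norm_num)
      have h2 : (1400 : ℝ) ^ 2 * (d * L) < 15 ^ 2 * d ^ 2 := by
        rw [← hR2]; nlinarith
      have h3 : (1400 : ℝ) ^ 2 * L < 15 ^ 2 * d := by
        have h4 : ((1400 : ℝ) ^ 2 * L) * d < (15 ^ 2 * d) * d := by nlinarith
        exact lt_of_mul_lt_mul_right h4 (by linarith)
      nlinarith
    have hd6000 : 6000 ≤ d := by exact_mod_cast hdbig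
    have hR1 : 1 ≤ R := by
      rw [hR]
      rw [Real.one_le_sqrt]
      nlinarith
    have hdl : d ≤ l := by
      have : (d : ℝ) ≤ l := by nlinarith
      exact_mod_cast this
    have hlR : (0 : ℝ) < l := by
      have : (d : ℝ) ≤ l := by exact_mod_cast hdl
      linarith
    set X : ℝ := 11 * R with hX
    have hX2 : X ^ 2 = 121 * (d * log ((d : ℝ) + 1)) := by
      rw [hX, mul_pow, hR2, hL]; ring
    have hXd : X ≤ d / 8 := by rw [hX]; linarith
    set g : ℝ := (1 - 1 / (2 * (l : ℝ))) ^ d / 2 with hg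
    have hdl' : (d : ℝ) ≤ l := by exact_mod_cast hdl
    have hq1 : 1 / (2 * (l : ℝ)) ≤ 1 := by
      rw [div_le_one (by positivity)]; linarith
    have hq0 : 0 ≤ 1 / (2 * (l : ℝ)) := by positivity
    have hg1 : g ≤ 1 / 2 := by
      have : (1 - 1 / (2 * (l : ℝ))) ^ d ≤ 1 := pow_le_one₀ (by linarith) (by linarith)
      rw [hg]; linarith
    have hg0 : 1 / 4 ≤ g := by
      have h1 := one_add_mul_le_pow (a := -(1 / (2 * (l : ℝ)))) (by linarith) d
      have h2 : (d : ℝ) * (1 / (2 * (l : ℝ))) ≤ 1 / 2 := by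
        rw [mul_one_div, div_le_div_iff₀ (by positivity) (by norm_num)]
        linarith
      have h3 : (1 + -(1 / (2 * (l : ℝ)))) ^ d = (1 - 1 / (2 * (l : ℝ))) ^ d := by
        rw [← sub_eq_add_neg]
      rw [h3] at h1
      rw [hg]; linarith
    set l' : ℕ := ⌊(l : ℝ) - g * d - X⌋₊ with hl'
    set d' : ℕ := ⌊(1 - g) * d + X⌋₊ with hd'
    have hgd : g * d ≤ 1 / 2 * d := mul_le_mul_of_nonneg_right hg1 (by linarith)
    have hgd4 : 1 / 4 * d ≤ g * d := mul_le_mul_of_nonneg_right hg0 (by linarith)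
    have hX0 : 0 ≤ X := by rw [hX]; positivity
    have hnn1 : 0 ≤ (l : ℝ) - g * d - X := by linarith
    have hnn2 : 0 ≤ (1 - g) * (d : ℝ) + X := by nlinarith
    have hl1 : (l' : ℝ) ≤ l - g * d - X := Nat.floor_le hnn1
    have hl2 : (l : ℝ) - g * d - X < l' + 1 := Nat.lt_floor_add_one _
    have hd1' : (d' : ℝ) ≤ (1 - g) * d + X := Nat.floor_le hnn2
    have hd2 : (1 - g) * (d : ℝ) + X < d' + 1 := Nat.lt_floor_add_one _
    have hd78 : (d' : ℝ) ≤ 7 / 8 * d := by linarith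
    have hd'lt : d' < d := by
      have : (d' : ℝ) < d := by linarith
      exact_mod_cast this
    have hd'1 : 1 ≤ d' := by
      have : (1 : ℝ) ≤ (d' : ℝ) := by linarith
      exact_mod_cast this
    refine nibble (by omega) hdl (by omega) X g hg hX0 hXd (num_bound (by omega) (by omega) X hX2)
      hl1 hd2 (ih d' hd'lt hd'1 l' ?_)
    set R' : ℝ := √(d' * log ((d' : ℝ) + 1)) with hR'
    have hR'0 : 0 ≤ R' := Real.sqrt_nonneg _
    have hlog' : log ((d' : ℝ) + 1) ≤ L := Real.log_le_log (by positivity) (by linarith)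
    have hlog'0 : 0 ≤ log ((d' : ℝ) + 1) := Real.log_nonneg (by linarith [Nat.cast_nonneg (α := ℝ) d'])
    have hR'le : R' ≤ 0.936 * R := by
      rw [hR', ← Real.sqrt_sq (show (0 : ℝ) ≤ 0.936 * R by positivity)]
      apply Real.sqrt_le_sqrt
      rw [mul_pow, hR2]
      have h1 : (d' : ℝ) * log ((d' : ℝ) + 1) ≤ (7 / 8 * d) * L :=
        mul_le_mul hd78 hlog' hlog'0 (by positivity)
      have h2 : 0 ≤ (d : ℝ) * L := by positivity
      nlinarith
    nlinarith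

end Pool.Agent.Helper96.NB
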