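import Pool.Agent.Helper96.NB.Bad

/-!
# One nibble
-/

namespace Pool.Agent.Helper96.NB

set_option linter.unusedSectionVars false

open Finset PW Real

/-- lists of size `l`, degree at most `d`: an independent transversal exists -/
def Good (l d : ℕ) : Prop :=
  ∀ (n : ℕ) (E : Fin n × Fin l → Fin n × Fin l → Prop), Conf E → (∀ s, (N E s).card ≤ d) →
    ∃ c : Fin n → Fin l, ∀ v w, ¬E (v, c v) (w, c w)

variable {n l : ℕ} (E : Fin n × Fin l → Fin n × Fin l → Prop)

open Classical in
theorem FQ_card (Q : Finset (Fin n × Fin l)) (ω : Om n l) :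
    FQ E Q ω = ((Q.filter (fun s => kept E s ω)).card : ℝ) := by
  unfold FQ ev
  rw [Finset.card_filter]
  push_cast
  rfl

open Classical in
/-- alive slots of `v` -/
noncomputable def alive (ω : Om n l) (v : Fin n) : Finset (Fin l) :=
  univ.filter (fun i => ∀ t ∈ N E (v, i), ¬kept E t ω)

open Classical in
/-- uncoloured vertices -/
noncomputable def unc (ω : Om n l) : Finset (Fin n) :=
  univ.filter (fun v => ∀ i, ¬kept E (v, i) ω)

theorem mem_alive {ω : Om n l} {v : Fin n} {i : Fin l} :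
    i ∈ alive E ω v ↔ ∀ t ∈ N E (v, i), ¬kept E t ω := by simp [alive]

theorem mem_unc {ω : Om n l} {v : Fin n} : v ∈ unc E ω ↔ ∀ i, ¬kept E (v, i) ω := by simp [unc]

theorem alive_card (hE : Conf E) (ω : Om n l) (v : Fin n) :
    (l : ℝ) - FQ E (Qv E v) ω ≤ (alive E ω v).card := by
  classical
  have h1 : (univ \ alive E ω v).card ≤ ((Qv E v).filter (fun s => kept E s ω)).card := by
    have hex : ∀ i : Fin l, ∃ t : Fin n × Fin l,
        i ∈ univ \ alive E ω v → t ∈ N E (v, i) ∧ kept E t ω := by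
      intro i
      by_cases hi : i ∈ univ \ alive E ω v
      · have := (Finset.mem_sdiff.1 hi).2
        rw [mem_alive] at this
        push Not at this
        obtain ⟨t, ht⟩ := this
        exact ⟨t, fun _ => ht⟩
      · exact ⟨(v, i), fun h => absurd h hi⟩
    choose f hf using hex
    refine Finset.card_le_card_of_injOn f ?_ ?_
    · intro i hi
      have := hf i hi
      refine Finset.mem_coe.2 (Finset.mem_filter.2 ⟨?_, this.2⟩)
      exact Finset.mem_biUnion.2 ⟨i, Finset.mem_univ _, this.1⟩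
    · intro i hi j hj hij
      have h2 := hE.symm _ _ (mem_N.1 (hf i hi).1)
      have h3 := hE.symm _ _ (mem_N.1 (hf j hj).1)
      rw [← hij] at h3
      have := hE.mat _ _ _ h2 h3 rfl
      exact congrArg Prod.snd this
  have h2 : (univ \ alive E ω v).card + (alive E ω v).card = l := by
    rw [Finset.card_sdiff_add_card_eq_card (Finset.subset_univ _)]
    simp
  rw [FQ_card]
  have h3 : ((univ \ alive E ω v).card : ℝ) ≤
      (((Qv E v).filter (fun s => kept E s ω)).card : ℝ) := by exact_mod_cast h1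
  have h4 : ((univ \ alive E ω v).card : ℝ) + ((alive E ω v).card : ℝ) = l := by
    exact_mod_cast h2
  have h5 : ((Qv E v).filter (fun s => kept E s ω)).card =
    (Finset.filter (fun s => kept E s ω) (Qv E v)).card := rfl
  linarith

theorem kept_inj {ω : Om n l} {s t : Fin n × Fin l} (hs : kept E s ω) (ht : kept E t ω)
    (h : s.1 = t.1) : s = t := by
  have h1 : ω (Sum.inl s.1) = some s.2 := hs.1
  have h2 : ω (Sum.inl t.1) = some t.2 := ht.1
  rw [h, h2] at h1
  exact Prod.ext h (Option.some_injective _ h1).symm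

theorem resid_card (_hE : Conf E) (ω : Om n l) (s : Fin n × Fin l) :
    (((N E s).filter (fun t => t.1 ∈ unc E ω)).card : ℝ) ≤ (N E s).card - FQ E (Qs E s) ω := by
  classical
  have h1 : ((Qs E s).filter (fun x => kept E x ω)).card ≤
      ((N E s).filter (fun t => t.1 ∉ unc E ω)).card := by
    have h2 : ((Qs E s).filter (fun x => kept E x ω)).card =
        (((Qs E s).filter (fun x => kept E x ω)).image Prod.fst).card := by
      rw [Finset.card_image_of_injOn]
      intro x hx y hy hxy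
      exact kept_inj E (Finset.mem_filter.1 hx).2 (Finset.mem_filter.1 hy).2 hxy
    rw [h2]
    refine le_trans (Finset.card_le_card ?_)
      (Finset.card_image_le (s := (N E s).filter (fun t => t.1 ∉ unc E ω)) (f := Prod.fst))
    intro v hv
    obtain ⟨x, hx, rfl⟩ := Finset.mem_image.1 hv
    obtain ⟨hx1, hx2⟩ := Finset.mem_filter.1 hx
    unfold Qs at hx1
    obtain ⟨t, ht, htx⟩ := Finset.mem_image.1 (Finset.mem_product.1 hx1).1
    refine Finset.mem_image.2 ⟨t, Finset.mem_filter.2 ⟨ht, ?_⟩, htx⟩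
    rw [htx, mem_unc]
    push Not
    exact ⟨x.2, hx2⟩
  have h3 : ((N E s).filter (fun t => t.1 ∈ unc E ω)).card +
      ((N E s).filter (fun t => t.1 ∉ unc E ω)).card = (N E s).card :=
    Finset.card_filter_add_card_filter_not _
  rw [FQ_card]
  have h4 : (((Qs E s).filter (fun x => kept E x ω)).card : ℝ) ≤
      (((N E s).filter (fun t => t.1 ∉ unc E ω)).card : ℝ) := by exact_mod_cast h1
  have h5 : (((N E s).filter (fun t => t.1 ∈ unc E ω)).card : ℝ) +
      (((N E s).filter (fun t => t.1 ∉ unc E ω)).card : ℝ) = (N E s).card := by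
    exact_mod_cast h3
  linarith

/-- the reduction for a given outcome -/
theorem reduce (hE : Conf E) {l' d' : ℕ} (good : Good l' d') (ω : Om n l)
    (hA : ∀ v, l' ≤ (alive E ω v).card)
    (hdeg : ∀ s, ((N E s).filter (fun t => t.1 ∈ unc E ω)).card ≤ d') :
    ∃ c : Fin n → Fin l, ∀ v w, ¬E (v, c v) (w, c w) := by
  classical
  set U := unc E ω with hU
  let e : Fin U.card ≃ U := U.equivFin.symm
  let f : Fin n → Fin l' → Fin l := fun v => (alive E ω v).orderEmbOfCardLe (hA v)
  have hfinj : ∀ v, Function.Injective (f v) := fun v =>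
    ((alive E ω v).orderEmbOfCardLe (hA v)).injective
  have hfmem : ∀ v i, f v i ∈ alive E ω v := fun v i =>
    Finset.orderEmbOfCardLe_mem _ (hA v) i
  let g : Fin U.card × Fin l' → Fin n × Fin l := fun s => ((e s.1).1, f (e s.1).1 s.2)
  have hg1 : ∀ s, (g s).1 = (e s.1).1 := fun s => rfl
  have hginj : Function.Injective g := by
    rintro ⟨a, i⟩ ⟨b, j⟩ h
    have h1 : (e a).1 = (e b).1 := congrArg Prod.fst h
    have h2 : a = b := e.injective (Subtype.ext h1)
    subst h2
    have h3 : f (e a).1 i = f (e a).1 j := congrArg Prod.snd h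
    rw [hfinj _ h3]
  set E' : Fin U.card × Fin l' → Fin U.card × Fin l' → Prop := fun s t => E (g s) (g t) with hE'
  have hconf : Conf E' := by
    refine ⟨fun s t h => hE.symm _ _ h, fun s t h hst => ?_, fun s t t' h h' htt => ?_⟩
    · exact hE.irr _ _ h (by rw [hg1, hg1, hst])
    · exact hginj (hE.mat _ _ _ h h' (by rw [hg1, hg1, htt]))
  obtain ⟨c', hc'⟩ := good U.card E' hconf (by
    intro s
    refine le_trans ?_ (hdeg (g s))
    refine Finset.card_le_card_of_injOn g ?_ hginj.injOn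
    intro t ht
    have ht' : E' s t := mem_N.1 (Finset.mem_coe.1 ht)
    refine Finset.mem_coe.2 (Finset.mem_filter.2 ⟨mem_N.2 ht', ?_⟩)
    rw [hg1]; exact (e t.1).2)
  have hk : ∀ v, ∃ i, v ∉ U → kept E (v, i) ω := by
    intro v
    by_cases hv : v ∈ U
    · exact ⟨f v (c' (e.symm ⟨v, hv⟩)), fun h => absurd hv h⟩
    · have : v ∉ unc E ω := hv
      rw [mem_unc] at this
      push Not at this
      obtain ⟨i, hi⟩ := this
      exact ⟨i, fun _ => hi⟩
  choose k hk using hk
  let c : Fin n → Fin l := fun v => if h : v ∈ U then f v (c' (e.symm ⟨v, h⟩)) else k v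
  have hcU : ∀ v (h : v ∈ U), c v = f v (c' (e.symm ⟨v, h⟩)) := fun v h => dif_pos h
  have hcn : ∀ v, v ∉ U → kept E (v, c v) ω := by
    intro v h
    have : c v = k v := dif_neg h
    rw [this]; exact hk v h
  have hcg : ∀ v (h : v ∈ U), (v, c v) = g (e.symm ⟨v, h⟩, c' (e.symm ⟨v, h⟩)) := by
    intro v h
    have h1 : (e (e.symm ⟨v, h⟩)).1 = v := by rw [Equiv.apply_symm_apply]
    rw [hcU v h]
    show (v, _) = ((e (e.symm ⟨v, h⟩)).1, f (e (e.symm ⟨v, h⟩)).1 _)
    rw [h1]
  -- kept slots do not conflict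
  have hkk : ∀ v w, kept E (v, c v) ω → kept E (w, c w) ω → ¬E (v, c v) (w, c w) := by
    intro v w hv hw h
    have hne : v ≠ w := hE.irr _ _ h
    rcases lt_or_gt_of_ne hne with hlt | hlt
    · exact hw.2.2 (v, c v) (Finset.mem_filter.2 ⟨mem_N.2 (hE.symm _ _ h), hlt⟩) hv.1
    · exact hv.2.2 (w, c w) (Finset.mem_filter.2 ⟨mem_N.2 h, hlt⟩) hw.1
  have hau : ∀ v w, v ∈ U → w ∉ U → ¬E (v, c v) (w, c w) := by
    intro v w hv hw h
    have h1 : c v ∈ alive E ω v := by rw [hcU v hv]; exact hfmem _ _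
    rw [mem_alive] at h1
    exact h1 _ (mem_N.2 h) (hcn w hw)
  refine ⟨c, fun v w h => ?_⟩
  by_cases hv : v ∈ U
  · by_cases hw : w ∈ U
    · rw [hcg v hv, hcg w hw] at h
      exact hc' _ _ h
    · exact hau v w hv hw h
  · by_cases hw : w ∈ U
    · exact hau w v hw hv (hE.symm _ _ h)
    · exact hkk v w (hcn v hv) (hcn w hw) h

/-- **The nibble.** -/
theorem nibble {d l' d' : ℕ} (h32 : 32 ≤ d) (hdl : d ≤ l) (hl16 : l ≤ 16 * d) (X g : ℝ)
    (hg : g = (1 - 1 / (2 * (l : ℝ))) ^ d / 2) (hX0 : 0 ≤ X) (hX : X ≤ d / 8)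
    (hnum : 16 * ((1 : ℝ) + l) * (1 + l * d) ^ 4 * exp (-(X ^ 2 / (8 * d))) ≤ 1)
    (hl' : (l' : ℝ) ≤ l - g * d - X) (hd' : (1 - g) * d + X < d' + 1) (good : Good l' d') :
    Good l d := by
  intro n E hE hd
  obtain ⟨ω, hω⟩ := exists_good E hE d rfl hd h32 hdl hl16 X hX0 hX hnum
  have hl0 : (1 : ℝ) ≤ l := by
    have : 1 ≤ l := by omega
    exact_mod_cast this
  set p : ℝ := 1 / (2 * (l : ℝ)) with hp
  have hp0 : 0 ≤ p := by rw [hp]; positivity
  have hp1 : p ≤ 1 := by rw [hp, div_le_one (by positivity)]; linarith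
  set κ : ℝ := (1 - p) ^ d with hκ
  have hκ0 : 0 ≤ κ := pow_nonneg (by linarith) _
  have hκ1 : κ ≤ 1 := pow_le_one₀ (by linarith) (by linarith)
  have hpl : p * l = 1 / 2 := by rw [hp]; field_simp
  have hg0 : 0 ≤ g := by rw [hg]; positivity
  have hg1 : g ≤ 1 := by rw [hg]; linarith
  refine reduce E hE good ω ?_ ?_
  · intro v
    have h1 := alive_card E hE ω v
    have h2 := (abs_le.1 (hω v (Qv E v) (Finset.mem_insert_self _ _))).2
    have h3 : ((Qv E v).card : ℝ) ≤ l * d := by exact_mod_cast card_Qv_le E d hd v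
    have h4 : p * (κ * (Qv E v).card) ≤ g * d := by
      have h5 := mul_le_mul_of_nonneg_left h3 (mul_nonneg hp0 hκ0)
      calc p * (κ * (Qv E v).card) = p * κ * (Qv E v).card := by ring
        _ ≤ p * κ * (l * d) := h5
        _ = (p * l) * κ * d := by ring
        _ = g * d := by rw [hpl, hg]; ring
    have h6 : (l' : ℝ) ≤ ((alive E ω v).card : ℝ) := by linarith
    exact_mod_cast h6
  · intro s
    have h1 := resid_card E hE ω s
    have hmem : Qs E s ∈ fam E s.1 := Finset.mem_insert_of_mem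
      (Finset.mem_image.2 ⟨s.2, Finset.mem_univ _, rfl⟩)
    have h2 := (abs_le.1 (hω s.1 (Qs E s) hmem)).1
    have h3 : ((Qs E s).card : ℝ) = l * (N E s).card := by
      rw [card_Qs E hE]; push_cast; ring
    have h4 : p * (κ * (Qs E s).card) = g * (N E s).card := by
      rw [h3]
      calc p * (κ * (l * (N E s).card)) = (p * l) * κ * (N E s).card := by ring
        _ = _ := by rw [hpl, hg]; ring
    have h5 : ((N E s).card : ℝ) ≤ d := by exact_mod_cast hd s
    have h6 : (1 - g) * ((N E s).card : ℝ) ≤ (1 - g) * d :=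
      mul_le_mul_of_nonneg_left h5 (by linarith)
    have h7 : (((N E s).filter (fun t => t.1 ∈ unc E ω)).card : ℝ) < d' + 1 := by linarith
    have h8 : ((N E s).filter (fun t => t.1 ∈ unc E ω)).card < d' + 1 := by exact_mod_cast h7
    omega

end Pool.Agent.Helper96.NB
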