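import Pool.Agent.Helper96.NB.Exp

/-!
# The random experiment of one nibble
-/

namespace Pool.Agent.Helper96.NB

set_option linter.unusedSectionVars false

open Finset PW Real

open Classical in
/-- the neighbours of a slot -/
noncomputable def N {n l : ℕ} (E : Fin n × Fin l → Fin n × Fin l → Prop) (s : Fin n × Fin l) :
    Finset (Fin n × Fin l) := univ.filter (fun t => E s t)

/-- a conflict structure: a symmetric relation on slots, a matching between any two lists -/
structure Conf {n l : ℕ} (E : Fin n × Fin l → Fin n × Fin l → Prop) : Prop where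
  symm : ∀ s t, E s t → E t s
  irr : ∀ s t, E s t → s.1 ≠ t.1
  mat : ∀ s t t', E s t → E s t' → t.1 = t'.1 → t = t'

theorem mem_N {n l : ℕ} {E : Fin n × Fin l → Fin n × Fin l → Prop} {s t : Fin n × Fin l} :
    t ∈ N E s ↔ E s t := by simp [N]

/-- the earlier neighbours -/
noncomputable def early {n l : ℕ} (E : Fin n × Fin l → Fin n × Fin l → Prop) (s : Fin n × Fin l) :
    Finset (Fin n × Fin l) := (N E s).filter (fun t => t.1 < s.1)

/-- coordinates: the pick of every vertex and a coin for every slot -/
abbrev Idx (n l : ℕ) := Fin n ⊕ (Fin n × Fin l)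

/-- outcomes -/
abbrev Om (n l : ℕ) := Idx n l → Option (Fin l)

variable {n l : ℕ}

/-- probability that the coin of `s` says yes -/
noncomputable def coinP (E : Fin n × Fin l → Fin n × Fin l → Prop) (d : ℕ) (p : ℝ)
    (s : Fin n × Fin l) : ℝ := (1 - p) ^ (d - (early E s).card)

/-- the weights -/
noncomputable def wt (E : Fin n × Fin l → Fin n × Fin l → Prop) (d : ℕ) (p : ℝ) :
    Idx n l → Option (Fin l) → ℝ
  | Sum.inl _, none => 1 - l * p
  | Sum.inl _, some _ => p
  | Sum.inr s, none => coinP E d p s
  | Sum.inr s, some _ => (1 - coinP E d p s) / l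

theorem coinP_nonneg (E : Fin n × Fin l → Fin n × Fin l → Prop) (d : ℕ) {p : ℝ} (hp1 : p ≤ 1)
    (s : Fin n × Fin l) : 0 ≤ coinP E d p s := pow_nonneg (by linarith) _

theorem coinP_le_one (E : Fin n × Fin l → Fin n × Fin l → Prop) (d : ℕ) {p : ℝ} (hp0 : 0 ≤ p)
    (hp1 : p ≤ 1) (s : Fin n × Fin l) : coinP E d p s ≤ 1 :=
  pow_le_one₀ (by linarith) (by linarith)

/-- the probability space -/
noncomputable def Pr (E : Fin n × Fin l → Fin n × Fin l → Prop) (d : ℕ) (p : ℝ) (hp0 : 0 ≤ p)
    (hp1 : p ≤ 1) (hlp : l * p ≤ 1) : PW (Idx n l) (Option (Fin l)) where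
  supp := fun _ => univ
  w := wt E d p
  nonneg := by
    rintro (v | s) (_ | i)
    · show 0 ≤ 1 - l * p; linarith
    · exact hp0
    · exact coinP_nonneg E d hp1 s
    · have := coinP_le_one E d hp0 hp1 s
      show 0 ≤ (1 - coinP E d p s) / l
      exact div_nonneg (by linarith) (Nat.cast_nonneg _)
  total := by
    rintro (v | s)
    · rw [Fintype.sum_option]
      simp only [wt, Finset.sum_const, Finset.card_univ, Fintype.card_fin, nsmul_eq_mul]
      ring
    · rw [Fintype.sum_option]
      simp only [wt, Finset.sum_const, Finset.card_univ, Fintype.card_fin, nsmul_eq_mul]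
      have hl : (l : ℝ) ≠ 0 := by
        have : 0 < l := lt_of_le_of_lt (Nat.zero_le _) s.2.2
        exact_mod_cast this.ne'
      field_simp
      ring

/-- the pick is this slot -/
def pick (s : Fin n × Fin l) (ω : Om n l) : Prop := ω (Sum.inl s.1) = some s.2

/-- the slot is free: good coin, not picked by an earlier neighbour -/
def free (E : Fin n × Fin l → Fin n × Fin l → Prop) (s : Fin n × Fin l) (ω : Om n l) : Prop :=
  ω (Sum.inr s) = none ∧ ∀ t ∈ early E s, ¬pick t ω

/-- the slot is kept -/
def kept (E : Fin n × Fin l → Fin n × Fin l → Prop) (s : Fin n × Fin l) (ω : Om n l) : Prop :=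
  pick s ω ∧ free E s ω

/-- the list of all coins -/
noncomputable def coins (n l : ℕ) : List (Idx n l) :=
  ((univ : Finset (Fin n × Fin l)).toList).map Sum.inr

/-- the list of all picks in increasing order -/
def picks (n l : ℕ) : List (Idx n l) := (List.finRange n).map Sum.inl

/-- all coordinates, the coins first -/
noncomputable def all (n l : ℕ) : List (Idx n l) := coins n l ++ picks n l

theorem nodup_all : (all n l).Nodup := by
  unfold all
  rw [List.nodup_append]
  refine ⟨?_, ?_, ?_⟩
  · exact (Finset.nodup_toList _).map Sum.inr_injective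
  · exact (List.nodup_finRange n).map Sum.inl_injective
  · intro a ha b hb
    simp only [coins, picks, List.mem_map] at ha hb
    obtain ⟨s, _, rfl⟩ := ha
    obtain ⟨v, _, rfl⟩ := hb
    simp

theorem mem_all (i : Idx n l) : i ∈ all n l := by
  unfold all coins picks
  rw [List.mem_append]
  rcases i with v | s
  · right; exact List.mem_map_of_mem (List.mem_finRange v)
  · left; exact List.mem_map_of_mem (by simp)

theorem ev_congr {I A : Type*} [DecidableEq I] {E F : (I → A) → Prop} {ω ω' : I → A} (h : E ω ↔ F ω') :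
    ev E ω = ev F ω' := by
  by_cases hE : E ω
  · rw [ev_true hE, ev_true (h.1 hE)]
  · rw [ev_false hE, ev_false (fun hF => hE (h.2 hF))]

/-- a function of one coordinate -/
theorem av_single {I A : Type*} [DecidableEq I] (P : PW I A) {L : List I} (hL : L.Nodup) {i : I}
    (hi : i ∈ L) {f : (I → A) → ℝ} (hf : ∀ j, j ≠ i → Ind j f) (ω : I → A) :
    P.av L f ω = P.avg i f ω := by
  rw [P.av_perm (List.perm_cons_erase hi), av_cons]
  have : P.av (L.erase i) f = f := by
    funext ω
    refine P.av_ind _ (fun j hj => hf j ?_) ω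
    rintro rfl
    exact (List.Nodup.not_mem_erase hL) hj
  rw [this]

theorem Ind_pick {i : Idx n l} {s : Fin n × Fin l} (h : i ≠ Sum.inl s.1) : Ind i (ev (pick s)) := by
  intro ω a
  unfold ev pick
  rw [Function.update_of_ne (Ne.symm h)]

theorem Ind_notpicks {i : Idx n l} {T : Finset (Fin n × Fin l)} (h : ∀ t ∈ T, i ≠ Sum.inl t.1) :
    Ind i (ev (fun ω : Om n l => ∀ t ∈ T, ¬pick t ω)) := by
  intro ω a
  have : ∀ t ∈ T, (pick t (Function.update ω i a) ↔ pick t ω) := by
    intro t ht
    unfold pick
    rw [Function.update_of_ne (Ne.symm (h t ht))]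
  unfold ev
  have e : (∀ t ∈ T, ¬pick t (Function.update ω i a)) ↔ ∀ t ∈ T, ¬pick t ω :=
    ⟨fun h t ht hb => h t ht ((this t ht).2 hb), fun h t ht hb => h t ht ((this t ht).1 hb)⟩
  by_cases hh : ∀ t ∈ T, ¬pick t ω
  · rw [if_pos hh, if_pos (e.2 hh)]
  · rw [if_neg hh, if_neg (fun h => hh (e.1 h))]

section

variable (E : Fin n × Fin l → Fin n × Fin l → Prop) (d : ℕ) {p : ℝ} (hp0 : 0 ≤ p) (hp1 : p ≤ 1)
  (hlp : l * p ≤ 1)

theorem avg_pick (s : Fin n × Fin l) (ω : Om n l) :
    (Pr E d p hp0 hp1 hlp).avg (Sum.inl s.1) (ev (pick s)) ω = p := by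
  unfold avg
  show ∑ a ∈ (univ : Finset (Option (Fin l))), wt E d p (Sum.inl s.1) a * _ = p
  rw [Finset.sum_eq_single (some s.2)]
  · rw [ev_true (E := pick s) (by simp [pick])]
    simp [wt]
  · intro b _ hb
    rw [ev_false (E := pick s) (by simpa [pick] using hb), mul_zero]
  · simp

theorem av_notpick (s : Fin n × Fin l) (ω : Om n l) :
    (Pr E d p hp0 hp1 hlp).av (all n l) (ev (fun ω => ¬pick s ω)) ω = 1 - p := by
  have e : ev (fun ω => ¬pick s ω) = fun ω => 1 - ev (pick s) ω := by
    funext ω
    by_cases h : pick s ω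
    · rw [ev_true h, ev_false (E := fun ω => ¬pick s ω) (by simpa using h)]; norm_num
    · rw [ev_false h, ev_true (E := fun ω => ¬pick s ω) h]; norm_num
  rw [e, PW.av_sub, PW.av_const,
    av_single _ nodup_all (mem_all (Sum.inl s.1)) (fun j hj => Ind_pick hj), avg_pick]

theorem av_notpicks (T : Finset (Fin n × Fin l)) (hT : Set.InjOn Prod.fst (T : Set (Fin n × Fin l)))
    (ω : Om n l) :
    (Pr E d p hp0 hp1 hlp).av (all n l) (ev (fun ω => ∀ t ∈ T, ¬pick t ω)) ω =
      (1 - p) ^ T.card := by
  classical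
  induction T using Finset.induction_on with
  | empty =>
    have : ev (fun ω : Om n l => ∀ t ∈ (∅ : Finset (Fin n × Fin l)), ¬pick t ω) = fun _ => 1 := by
      funext ω; exact ev_true (by simp)
    rw [this, PW.av_const]; simp
  | insert t T ht ih =>
    have e : ev (fun ω : Om n l => ∀ u ∈ insert t T, ¬pick u ω) =
        fun ω => ev (fun ω => ¬pick t ω) ω * ev (fun ω => ∀ u ∈ T, ¬pick u ω) ω := by
      funext ω
      by_cases h1 : pick t ω
      · rw [ev_false (E := fun ω : Om n l => ∀ u ∈ insert t T, ¬pick u ω)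
          (fun h => h t (Finset.mem_insert_self _ _) h1),
          ev_false (E := fun ω => ¬pick t ω) (by simpa using h1)]
        ring
      · rw [ev_true (E := fun ω => ¬pick t ω) h1, one_mul]
        by_cases h2 : ∀ u ∈ T, ¬pick u ω
        · rw [ev_true (E := fun ω => ∀ u ∈ T, ¬pick u ω) h2,
            ev_true (E := fun ω : Om n l => ∀ u ∈ insert t T, ¬pick u ω)]
          intro u hu
          rcases Finset.mem_insert.1 hu with rfl | hu
          · exact h1
          · exact h2 u hu
        · rw [ev_false (E := fun ω => ∀ u ∈ T, ¬pick u ω) h2,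
            ev_false (E := fun ω : Om n l => ∀ u ∈ insert t T, ¬pick u ω)]
          intro h
          exact h2 fun u hu => h u (Finset.mem_insert_of_mem hu)
    rw [e, PW.av_mul, av_notpick, ih, Finset.card_insert_of_notMem ht, pow_succ]
    · ring
    · exact hT.mono (by simp)
    · intro i _
      by_cases hi : i = Sum.inl t.1
      · right
        refine Ind_notpicks fun u hu hiu => ?_
        rw [hi] at hiu
        have h1 : t.1 = u.1 := Sum.inl_injective hiu
        have : t = u := hT (by simp) (by simp [hu]) h1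
        exact ht (this ▸ hu)
      · left
        intro ω a
        refine ev_congr ?_
        unfold pick
        rw [Function.update_of_ne (Ne.symm hi)]

theorem Ind_coin {i : Idx n l} {s : Fin n × Fin l} (h : i ≠ Sum.inr s) :
    Ind i (ev (fun ω : Om n l => ω (Sum.inr s) = none)) := by
  intro ω a
  refine ev_congr ?_
  rw [Function.update_of_ne (Ne.symm h)]

theorem av_coin (s : Fin n × Fin l) (ω : Om n l) :
    (Pr E d p hp0 hp1 hlp).av (all n l) (ev (fun ω => ω (Sum.inr s) = none)) ω =
      coinP E d p s := by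
  rw [av_single _ nodup_all (mem_all (Sum.inr s)) (fun j hj => Ind_coin hj)]
  unfold avg
  show ∑ a ∈ (univ : Finset (Option (Fin l))), wt E d p (Sum.inr s) a * _ = _
  rw [Finset.sum_eq_single none]
  · rw [ev_true (by simp)]
    simp [wt]
  · intro b _ hb
    rw [ev_false (by simpa using hb), mul_zero]
  · simp

theorem free_eq (s : Fin n × Fin l) :
    ev (free E s) = fun ω => ev (fun ω : Om n l => ω (Sum.inr s) = none) ω *
      ev (fun ω => ∀ t ∈ early E s, ¬pick t ω) ω := by
  funext ω
  by_cases h1 : ω (Sum.inr s) = none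
  · rw [ev_true (E := fun ω : Om n l => ω (Sum.inr s) = none) h1, one_mul]
    by_cases h2 : ∀ t ∈ early E s, ¬pick t ω
    · rw [ev_true (E := free E s) ⟨h1, h2⟩, ev_true (E := fun ω => ∀ t ∈ early E s, ¬pick t ω) h2]
    · rw [ev_false (E := free E s) (fun h => h2 h.2),
        ev_false (E := fun ω => ∀ t ∈ early E s, ¬pick t ω) h2]
  · rw [ev_false (E := fun ω : Om n l => ω (Sum.inr s) = none) h1,
      ev_false (E := free E s) (fun h => h1 h.1)]
    ring

theorem kept_eq (s : Fin n × Fin l) :
    ev (kept E s) = fun ω => ev (free E s) ω * ev (pick s) ω := by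
  funext ω
  by_cases h1 : pick s ω
  · by_cases h2 : free E s ω
    · rw [ev_true (E := kept E s) ⟨h1, h2⟩, ev_true h1, ev_true h2]; ring
    · rw [ev_false (E := kept E s) (fun h => h2 h.2), ev_false h2]; ring
  · rw [ev_false (E := kept E s) (fun h => h1 h.1), ev_false h1]; ring

theorem card_early_le {s : Fin n × Fin l} (hd : (N E s).card ≤ d) : (early E s).card ≤ d :=
  (Finset.card_filter_le _ _).trans hd

theorem av_free (hE : Conf E) {s : Fin n × Fin l} (hd : (N E s).card ≤ d) (ω : Om n l) :
    (Pr E d p hp0 hp1 hlp).av (all n l) (ev (free E s)) ω = (1 - p) ^ d := by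
  rw [free_eq, PW.av_mul, av_coin, av_notpicks]
  · rw [coinP, ← pow_add, Nat.sub_add_cancel (card_early_le E d hd)]
  · intro t ht t' ht' h
    have h1 : E s t := mem_N.1 (Finset.mem_filter.1 (Finset.mem_coe.1 ht)).1
    have h2 : E s t' := mem_N.1 (Finset.mem_filter.1 (Finset.mem_coe.1 ht')).1
    exact hE.mat s t t' h1 h2 h
  · intro i _
    rcases i with v | u
    · left; exact Ind_coin (by simp)
    · right; exact Ind_notpicks (by simp)

end

end Pool.Agent.Helper96.NB
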