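import Pool.Agent.Helper96.NB.Conc2

/-!
# Tail bound for the number of kept slots
-/

namespace Pool.Agent.Helper96.NB

set_option linter.unusedSectionVars false

open Finset PW Real

variable {n l : ℕ}

theorem markov_exp {I A : Type*} [DecidableEq I] (P : PW I A) (L : List I) (f : (I → A) → ℝ)
    (lam c B : ℝ) (hB : ∀ ω, P.av L (fun ω => exp (lam * f ω)) ω ≤ exp B) (E : (I → A) → Prop)
    (hE : ∀ ω, E ω → lam * c ≤ lam * f ω) (ω : I → A) :
    P.av L (ev E) ω ≤ exp (B - lam * c) := by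
  have h := P.markov L (E := E) (f := fun ω => exp (lam * f ω)) (c := exp (lam * c)) (exp_pos _)
    (fun ω => (exp_pos _).le) (fun ω h => Real.exp_le_exp.2 (hE ω h)) ω
  refine h.trans ?_
  rw [Real.exp_sub]
  exact div_le_div_of_nonneg_right (hB ω) (exp_pos _).le

theorem tail (E : Fin n × Fin l → Fin n × Fin l → Prop) (hE : Conf E) (d : ℕ) {p : ℝ}
    (hp0 : 0 ≤ p) (hp1 : p ≤ 1) (hlp : l * p ≤ 1) (hp : p = 1 / (2 * l)) (hd : ∀ s, (N E s).card ≤ d)
    (h32 : 32 ≤ d) (hdl : d ≤ l) (hl16 : l ≤ 16 * d) (Q : Finset (Fin n × Fin l))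
    (hQ : Q.card ≤ l * d) (X : ℝ) (hX0 : 0 ≤ X) (hX : X ≤ d / 8) (ω : Om n l) :
    (Pr E d p hp0 hp1 hlp).av (all n l)
      (ev (fun ω => X < |FQ E Q ω - p * ((1 - p) ^ d * Q.card)|)) ω ≤
      4 * exp (-(X ^ 2 / (8 * d))) := by
  set P := Pr E d p hp0 hp1 hlp with hP
  have hd0 : (0 : ℝ) < d := by
    have : 0 < d := by omega
    exact_mod_cast this
  have hd32 : (32 : ℝ) ≤ d := by exact_mod_cast h32
  have hl0 : (0 : ℝ) < l := by
    have : 0 < l := by omega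
    exact_mod_cast this
  have hdl' : (d : ℝ) ≤ l := by exact_mod_cast hdl
  have hl16' : (l : ℝ) ≤ 16 * d := by exact_mod_cast hl16
  have hQ' : (Q.card : ℝ) ≤ l * d := by exact_mod_cast hQ
  have hQ0 : (0 : ℝ) ≤ Q.card := Nat.cast_nonneg _
  have hpl : p * l = 1 / 2 := by rw [hp]; field_simp
  have hpQ : p * Q.card ≤ d / 2 := by
    have := mul_le_mul_of_nonneg_left hQ' hp0
    have h2 : p * (l * d) = d / 2 := by rw [← mul_assoc, hpl]; ring
    linarith
  set lam : ℝ := X / (2 * d) with hlam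
  have hlam0 : 0 ≤ lam := by positivity
  have hlam1 : lam ≤ 1 := by
    rw [hlam, div_le_one (by positivity)]; linarith
  set mu : ℝ := X * l / (2 * d ^ 3) with hmu
  have hmu0 : 0 ≤ mu := by positivity
  have hmu1 : mu * d ≤ 1 := by
    rw [hmu, div_mul_eq_mul_div, div_le_one (by positivity)]
    have h1 : X * l ≤ d / 8 * (16 * d) := mul_le_mul hX hl16' hl0.le (by positivity)
    nlinarith
  set V : ℝ := p * d ^ 2 * Q.card + Q.card with hV
  have hVle : V ≤ d ^ 3 := by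
    have h1 : p * d ^ 2 * Q.card ≤ d ^ 3 / 2 := by
      have := mul_le_mul_of_nonneg_left hpQ (sq_nonneg (d : ℝ))
      have e : p * d ^ 2 * Q.card = d ^ 2 * (p * Q.card) := by ring
      rw [e]
      refine this.trans (le_of_eq (by ring))
    have h2 : (Q.card : ℝ) ≤ 16 * d ^ 2 := by nlinarith
    have h3 : (16 : ℝ) * d ^ 2 ≤ d ^ 3 / 2 := by nlinarith [sq_nonneg (d : ℝ)]
    linarith
  -- the four events
  have b1 : ∀ s : ℝ, |s| ≤ 1 → ∀ ω, P.av (all n l)
      (fun ω => exp (s * (FQ E Q ω - p * YQ E Q ω))) ω ≤ exp (s ^ 2 * (d / 2)) := by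
    intro s hs ω
    refine (bound1 E d hp0 hp1 hlp Q s hs ω).trans ?_
    rw [Real.exp_le_exp]
    exact mul_le_mul_of_nonneg_left hpQ (sq_nonneg s)
  have b2 : ∀ s : ℝ, |s| * d ≤ 1 → ∀ ω, P.av (all n l)
      (fun ω => exp (s * (YQ E Q ω - (1 - p) ^ d * Q.card))) ω ≤ exp (s ^ 2 * d ^ 3) := by
    intro s hs ω
    refine (bound2 E d hp0 hp1 hlp hE Q hd (by omega) s hs ω).trans ?_
    rw [Real.exp_le_exp]
    exact mul_le_mul_of_nonneg_left hVle (sq_nonneg s)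
  have e1 : lam ^ 2 * (d / 2) - lam * (X / 2) = -(X ^ 2 / (8 * d)) := by
    rw [hlam]; field_simp; ring
  have e2 : mu ^ 2 * d ^ 3 - mu * (X * l) ≤ -(X ^ 2 / (8 * d)) := by
    have h1 : mu ^ 2 * d ^ 3 - mu * (X * l) = -(X ^ 2 * (l ^ 2 / (4 * d ^ 3))) := by
      rw [hmu]; field_simp; ring
    rw [h1, neg_le_neg_iff]
    have h2 : 1 / (8 * (d : ℝ)) ≤ l ^ 2 / (4 * d ^ 3) := by
      rw [div_le_div_iff₀ (by positivity) (by positivity)]
      have h3 : (d : ℝ) ^ 2 ≤ l ^ 2 := by nlinarith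
      nlinarith
    have h4 := mul_le_mul_of_nonneg_left h2 (sq_nonneg X)
    calc X ^ 2 / (8 * d) = X ^ 2 * (1 / (8 * d)) := by ring
      _ ≤ _ := h4
  have t1 := markov_exp P (all n l) (fun ω => FQ E Q ω - p * YQ E Q ω) lam (X / 2)
    (lam ^ 2 * (d / 2)) (b1 lam (by rwa [abs_of_nonneg hlam0]))
    (fun ω => X / 2 ≤ FQ E Q ω - p * YQ E Q ω)
    (fun ω h => mul_le_mul_of_nonneg_left h hlam0) ω
  have t2 := markov_exp P (all n l) (fun ω => FQ E Q ω - p * YQ E Q ω) (-lam) (-(X / 2))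
    ((-lam) ^ 2 * (d / 2)) (b1 (-lam) (by rwa [abs_neg, abs_of_nonneg hlam0]))
    (fun ω => FQ E Q ω - p * YQ E Q ω ≤ -(X / 2))
    (fun ω h => by
      have := mul_le_mul_of_nonneg_left h hlam0
      linarith) ω
  have t3 := markov_exp P (all n l) (fun ω => YQ E Q ω - (1 - p) ^ d * Q.card) mu (X * l)
    (mu ^ 2 * d ^ 3) (b2 mu (by rwa [abs_of_nonneg hmu0]))
    (fun ω => X * l ≤ YQ E Q ω - (1 - p) ^ d * Q.card)
    (fun ω h => mul_le_mul_of_nonneg_left h hmu0) ω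
  have t4 := markov_exp P (all n l) (fun ω => YQ E Q ω - (1 - p) ^ d * Q.card) (-mu) (-(X * l))
    ((-mu) ^ 2 * d ^ 3) (b2 (-mu) (by rwa [abs_neg, abs_of_nonneg hmu0]))
    (fun ω => YQ E Q ω - (1 - p) ^ d * Q.card ≤ -(X * l))
    (fun ω h => by
      have := mul_le_mul_of_nonneg_left h hmu0
      linarith) ω
  have e3 : (-lam) ^ 2 * (d / 2) - (-lam) * (-(X / 2)) = lam ^ 2 * (d / 2) - lam * (X / 2) := by ring
  have e4 : (-mu) ^ 2 * (d : ℝ) ^ 3 - (-mu) * (-(X * l)) = mu ^ 2 * d ^ 3 - mu * (X * l) := by ring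
  rw [e1] at t1
  rw [e3, e1] at t2
  rw [e4] at t4
  have t3' := t3.trans (Real.exp_le_exp.2 e2)
  have t4' := t4.trans (Real.exp_le_exp.2 e2)
  -- union
  have hun : ∀ ω, ev (fun ω => X < |FQ E Q ω - p * ((1 - p) ^ d * Q.card)|) ω ≤
      (ev (fun ω => X / 2 ≤ FQ E Q ω - p * YQ E Q ω) ω +
        ev (fun ω => FQ E Q ω - p * YQ E Q ω ≤ -(X / 2)) ω) +
      (ev (fun ω => X * l ≤ YQ E Q ω - (1 - p) ^ d * Q.card) ω +
        ev (fun ω => YQ E Q ω - (1 - p) ^ d * Q.card ≤ -(X * l)) ω) := by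
    intro ω
    refine (ev_mono (F := fun ω => ((X / 2 ≤ FQ E Q ω - p * YQ E Q ω) ∨
      (FQ E Q ω - p * YQ E Q ω ≤ -(X / 2))) ∨ ((X * l ≤ YQ E Q ω - (1 - p) ^ d * Q.card) ∨
      (YQ E Q ω - (1 - p) ^ d * Q.card ≤ -(X * l)))) ?_ ω).trans ?_
    · intro ω h
      by_contra hcon
      push Not at hcon
      obtain ⟨⟨h1, h2⟩, h3, h4⟩ := hcon
      have e : FQ E Q ω - p * ((1 - p) ^ d * Q.card) =
          (FQ E Q ω - p * YQ E Q ω) + p * (YQ E Q ω - (1 - p) ^ d * Q.card) := by ring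
      have h5 : p * (YQ E Q ω - (1 - p) ^ d * Q.card) ≤ X / 2 := by
        have := mul_le_mul_of_nonneg_left h3.le hp0
        have e5 : p * (X * l) = X / 2 := by
          rw [show p * (X * l) = (p * l) * X by ring, hpl]; ring
        linarith
      have h6 : -(X / 2) ≤ p * (YQ E Q ω - (1 - p) ^ d * Q.card) := by
        have := mul_le_mul_of_nonneg_left h4.le hp0
        have e5 : p * (-(X * l)) = -(X / 2) := by
          rw [show p * (-(X * l)) = -((p * l) * X) by ring, hpl]; ring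
        linarith
      have h7 : |FQ E Q ω - p * ((1 - p) ^ d * Q.card)| ≤ X := by
        rw [e, abs_le]; constructor <;> linarith
      linarith
    · refine (ev_or_le _ _ ω).trans (add_le_add (ev_or_le _ _ ω) (ev_or_le _ _ ω))
  have h := P.av_mono (all n l) hun ω
  rw [P.av_add, P.av_add, P.av_add] at h
  linarith

end Pool.Agent.Helper96.NB
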